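import Mathlib
import Pool.Agent.Helper126.Sus.Forc
import Pool.Agent.W876.Two.Gen

/-!
# A forcing notion which forces the continuum hypothesis
-/

namespace Pool.Agent.R594.Star

open Cardinal Pool.Agent.Helper126.Sus.Forc
open Pool.Agent.W876.Two.Gen (IsFun)

/-- `ω₁` is preserved: no function from the natural numbers to (the ground model) `ω₁` is onto. -/
def OmegaOnePreserved (P : Type) [Preorder P] : Set P :=
  fnot (fex fun R : ℕ → K1 → Set P => fand (IsFun R) (fall fun α => fex fun n => meets (R n α)))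

/-- The continuum hypothesis: there is a family of functions from `ℕ` to `ℕ`, indexed by `ω₁`,
which contains every function from `ℕ` to `ℕ`. -/
def ContinuumHypothesis (P : Type) [Preorder P] : Set P :=
  fex fun E : K1 → ℕ → ℕ → Set P => fand (fall fun α => IsFun (E α))
    (fall fun f : ℕ → ℕ → Set P => fimp (IsFun f)
      (fex fun α => fall fun n => fall fun a => fimp (meets (f n a)) (meets (E α n a))))

/-! ### the countable ordinals -/

theorem mk_K1 : #K1 = ℵ₁ := by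
  rw [mk_ord_toType]

theorem countable_Iio_K1 (b : K1) : (Set.Iio b).Countable := by
  rw [← le_aleph0_iff_set_countable, ← lt_aleph_one_iff]
  have h := mk_Iio_lt b (by simp)
  rwa [mk_ord_toType] at h

/-- countable sets are bounded -/
theorem exists_gt_K1 {C : Set K1} (hC : C.Countable) : ∃ b : K1, ∀ c ∈ C, c < b := by
  by_contra hcon
  push Not at hcon
  have h1 : (Set.univ : Set K1) ⊆ ⋃ c ∈ C, (Set.Iio c ∪ {c}) := by
    intro b _
    obtain ⟨c, hc, hbc⟩ := hcon b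
    refine Set.mem_biUnion hc ?_
    rcases hbc.lt_or_eq with h | h
    · exact Or.inl h
    · exact Or.inr h
  have h2 : (Set.univ : Set K1).Countable :=
    (hC.biUnion fun c _ => (countable_Iio_K1 c).union (Set.countable_singleton c)).mono h1
  have h3 : #K1 ≤ ℵ₀ := by
    rw [← mk_univ]
    exact le_aleph0_iff_set_countable.2 h2
  rw [mk_K1] at h3
  exact absurd h3 (not_le.2 aleph0_lt_aleph_one)

/-! ### the forcing notion -/

/-- conditions: functions from an initial segment of `ω₁` to `ℕ → ℕ` -/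
structure Cond : Type where
  /-- the domain is the set of the ordinals below `b` -/
  b : K1
  /-- the function (its values outside the domain do not matter) -/
  f : K1 → ℕ → ℕ

instance : Preorder Cond where
  le p q := q.b ≤ p.b ∧ ∀ ξ < q.b, p.f ξ = q.f ξ
  le_refl p := ⟨le_rfl, fun _ _ => rfl⟩
  le_trans p q r h h' := ⟨h'.1.trans h.1, fun ξ hξ =>
    (h.2 ξ (hξ.trans_le h'.1)).trans (h'.2 ξ hξ)⟩

theorem le_def {p q : Cond} : p ≤ q ↔ q.b ≤ p.b ∧ ∀ ξ < q.b, p.f ξ = q.f ξ := Iff.rfl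

/-- decreasing sequences have lower bounds -/
theorem exists_lower (q : ℕ → Cond) (hq : Antitone q) : ∃ r, ∀ n, r ≤ q n := by
  classical
  obtain ⟨b, hb⟩ := exists_gt_K1 (Set.countable_range fun n => (q n).b)
  refine ⟨⟨b, fun ξ => if h : ∃ n, ξ < (q n).b then (q h.choose).f ξ else fun _ => 0⟩, fun n =>
    ⟨(hb _ ⟨n, rfl⟩).le, fun ξ hξ => ?_⟩⟩
  have hex : ∃ n, ξ < (q n).b := ⟨n, hξ⟩
  show (if h : ∃ n, ξ < (q n).b then (q h.choose).f ξ else fun _ => 0) = (q n).f ξ
  rw [dif_pos hex]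
  have h1 := hex.choose_spec
  rcases le_total hex.choose n with h | h
  · exact ((hq h).2 ξ h1).symm
  · exact (hq h).2 ξ hξ

/-- names of functions on the natural numbers are decided -/
theorem decide_fun {Y : Type} {R : ℕ → Y → Set Cond} {p : Cond} (hp : p ∈ IsFun R) :
    ∃ q ≤ p, ∃ h : ℕ → Y, ∀ n, q ∈ meets (R n (h n)) := by
  have step : ∀ (n : ℕ) (s : {s : Cond // s ≤ p}), ∃ t : {s : Cond // s ≤ p}, t.1 ≤ s.1 ∧
      ∃ y, t.1 ∈ meets (R n y) := by
    rintro n ⟨s, hs⟩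
    obtain ⟨r, hr, y, hy⟩ := mem_fex.1 (hp.1 n) s hs
    exact ⟨⟨r, hr.trans hs⟩, hr, y, hy⟩
  choose t ht h hh using step
  let q : ℕ → {s : Cond // s ≤ p} := fun n => Nat.rec ⟨p, le_rfl⟩ (fun n s => t n s) n
  have hq : ∀ n, q (n + 1) = t n (q n) := fun _ => rfl
  have hanti : Antitone fun n => (q n).1 := antitone_nat_of_succ_le fun n => by
    rw [hq]
    exact ht n (q n)
  obtain ⟨r, hr⟩ := exists_lower _ hanti
  refine ⟨r, hr 0, fun n => h n (q n), fun n => ?_⟩
  exact meets_down (hh n (q n)) (by rw [← hq]; exact hr (n + 1))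

/-- the generic enumeration -/
def En (α : K1) (n a : ℕ) : Set Cond := {q | α < q.b ∧ q.f α n = a}

theorem En_down {α : K1} {n a : ℕ} {p q : Cond} (h : p ∈ En α n a) (hq : q ≤ p) :
    q ∈ En α n a := by
  refine ⟨h.1.trans_le hq.1, ?_⟩
  rw [hq.2 α h.1]
  exact h.2

theorem isFun_En (p : Cond) (α : K1) : p ∈ IsFun (En α) := by
  refine ⟨fun n => mem_fex.2 fun q _ => ?_, fun n a a' => mem_fimp.2 ?_⟩
  · obtain ⟨b, hb⟩ := exists_gt_K1 ((Set.countable_singleton α).union (Set.countable_singleton q.b))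
    refine ⟨⟨b, q.f⟩, ⟨(hb _ (Or.inr rfl)).le, fun _ _ => rfl⟩, q.f α n, ?_⟩
    exact meets_of_mem ⟨hb _ (Or.inl rfl), rfl⟩
  · rintro q _ ⟨h1, h2⟩
    obtain ⟨r, hr, s, hs, hle⟩ := h1 q le_rfl
    obtain ⟨r', hr', s', hs', hle'⟩ := h2 r hr
    refine ⟨r', hr'.trans hr, ?_⟩
    show a = a'
    rw [← (En_down hs (hr'.trans hle)).2, (En_down hs' hle').2]

theorem omegaOnePreserved_cond (p : Cond) : p ∈ OmegaOnePreserved Cond := by
  intro q _ hq
  obtain ⟨r, _, R, hR, hR'⟩ := mem_fex.1 hq q le_rfl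
  obtain ⟨s, hs, h, hh⟩ := decide_fun hR
  obtain ⟨α, hα⟩ := exists_gt_K1 (Set.countable_range h)
  obtain ⟨t, ht, n, hn⟩ := mem_fex.1 (hR' α) s hs
  obtain ⟨_, _, he⟩ := mem_fimp.1 (hR.2 n (h n) α) t (ht.trans hs) ⟨meets_down (hh n) ht, hn⟩
  have he' : h n = α := he
  exact absurd (hα _ ⟨n, rfl⟩) (by rw [he']; exact lt_irrefl α)

theorem continuumHypothesis_cond (p : Cond) : p ∈ ContinuumHypothesis Cond := by
  refine mem_fex.2 fun q _ => ⟨q, le_rfl, En, fun α => isFun_En q α, fun f => mem_fimp.2 ?_⟩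
  intro r _ hr
  obtain ⟨s, hs, h, hh⟩ := decide_fun hr
  obtain ⟨b, hb⟩ := exists_gt_K1 (Set.countable_singleton s.b)
  have hsb : s.b < b := hb _ rfl
  let t : Cond := ⟨b, Function.update s.f s.b h⟩
  have hts : t ≤ s := ⟨hsb.le, fun ξ hξ => Function.update_of_ne hξ.ne _ _⟩
  refine ⟨t, hts.trans hs, mem_fex.2 fun u hu => ⟨u, le_rfl, s.b, fun n a => mem_fimp.2 ?_⟩⟩
  intro v hv hva
  obtain ⟨w, hw, he⟩ := mem_fimp.1 (hr.2 n (h n) a) v
    (hv.trans (hu.trans (hts.trans hs))) ⟨meets_down (hh n) (hv.trans (hu.trans hts)), hva⟩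
  have he' : h n = a := he
  refine ⟨w, hw, meets_of_mem (En_down (p := t) ⟨hsb, ?_⟩ (hw.trans (hv.trans hu)))⟩
  show Function.update s.f s.b h s.b n = a
  rw [Function.update_self, he']

theorem exists_forcing_ch : ∃ (P : Type) (_ : Preorder P), Nonempty P ∧ ∀ p : P,
    p ∈ OmegaOnePreserved P ∧ p ∈ ContinuumHypothesis P := by
  refine ⟨Cond, inferInstance, ?_, fun p => ⟨omegaOnePreserved_cond p, continuumHypothesis_cond p⟩⟩
  obtain ⟨b, _⟩ := exists_gt_K1 (Set.countable_empty)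
  exact ⟨⟨b, fun _ _ => 0⟩⟩

/-- and the translation: -/
theorem ch_iff : (∃ E : K1 → ℕ → ℕ, ∀ f : ℕ → ℕ, ∃ α, E α = f) ↔ (𝔠 : Cardinal.{0}) = ℵ₁ := by
  have hc : #(ℕ → ℕ) = 𝔠 := by
    rw [← power_def, mk_nat, aleph0_power_aleph0]
  constructor
  · rintro ⟨E, hE⟩
    apply le_antisymm
    · rw [← hc, ← mk_K1]
      exact mk_le_of_surjective (f := E) hE
    · exact aleph_one_le_continuum
  · intro h
    obtain ⟨e⟩ := Cardinal.eq.1 (mk_K1.trans (h.symm.trans hc.symm))
    exact ⟨e, fun f => ⟨e.symm f, e.apply_symm_apply f⟩⟩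

end Pool.Agent.R594.Star
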