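import Mathlib

/-!
# The levels of the index set
-/

namespace Pool.Agent.R594.Star

open Cardinal

/-- The set of countable ordinals. -/
abbrev Om : Type := (ℵ_ 1).ord.ToType

/-- The levels of the index set: the level `0` is `ω₁`, and the members of the level `k + 1` are
the pairs which consist of a function from the level `k` to `ω₁` and a natural number. -/
def Lv : ℕ → Type
  | 0 => Om
  | k + 1 => (Lv k → Om) × ℕ

end Pool.Agent.R594.Star
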