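import Mathlib
import Pool.Agent.R594.Star.Lev
import Pool.Agent.Helper126.Sus.Forc
import Pool.Agent.W876.Two.Gen

/-!
# Star-Hurewicz almost disjoint families: the conditions

The index set of the almost disjoint family is the union of the levels `Lv k`. A task is a function
`w` from a level `Lv k` to `ω₁`; its `n`-th block is the member `(w, n)` of the next level. The
forcing adds a subset `A i` of `ℕ` for every index `i` and dominating functions `g γ`, `γ < ω₁`.
A condition consists of a finite core and of finitely many promises, each promise being a name of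
a function to be dominated by `g γ`.
-/

namespace Pool.Agent.R594.Star

open Cardinal

/-- The tasks. -/
abbrev Tk : Type := Σ k : ℕ, (Lv k → Om)

/-- The indices of the generic subsets of `ℕ`. -/
abbrev Ix : Type := Σ k : ℕ, Lv k

/-- The `n`-th block of the task `t`. -/
def blk (t : Tk) (n : ℕ) : Ix := ⟨t.1 + 1, ((t.2, n) : (Lv t.1 → Om) × ℕ)⟩

theorem blk_inj {t t' : Tk} {n n' : ℕ} (h : blk t n = blk t' n') : t = t' ∧ n = n' := by
  obtain ⟨k, w⟩ := t
  obtain ⟨k', w'⟩ := t'
  unfold blk at h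
  simp only [Sigma.mk.injEq] at h
  obtain ⟨h1, h2⟩ := h
  obtain rfl : k = k' := by omega
  have h3 : ((w, n) : (Lv k → Om) × ℕ) = (w', n') := eq_of_heq h2
  obtain ⟨rfl, rfl⟩ := Prod.mk.inj h3
  exact ⟨rfl, rfl⟩

theorem om_nonempty : Nonempty Om := by
  rw [← Cardinal.mk_ne_zero_iff, Cardinal.mk_ord_toType]
  exact (Cardinal.aleph0_pos.trans_le (Cardinal.aleph0_le_aleph 1)).ne'

/-- The value of the task `t` at the index `i`; it matters only if `i` is in the level on which
`t` is defined. -/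
noncomputable def rk (t : Tk) (i : Ix) : Om :=
  if h : i.1 = t.1 then t.2 (h ▸ i.2) else Classical.choice om_nonempty

theorem rk_mk (k : ℕ) (w : Lv k → Om) (i : Lv k) : rk ⟨k, w⟩ ⟨k, i⟩ = w i := by
  simp [rk]

/-- `n` is in the set decided by `l`. -/
def On (l : List Bool) (n : ℕ) : Prop := l[n]? = some true

/-- The finite part of a condition. -/
structure Core : Type where
  x : Ix → List Bool
  g : Om → List ℕ
  z : Set (Sym2 Ix)
  ac : Set (Tk × Ix)
  hx : {i | x i ≠ []}.Finite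
  hg : {γ | g γ ≠ []}.Finite
  hz : z.Finite
  hac : ac.Finite

/-- The order of the cores. -/
structure CLe (q p : Core) : Prop where
  x : ∀ i, p.x i <+: q.x i
  g : ∀ γ, p.g γ <+: q.g γ
  z : p.z ⊆ q.z
  ac : p.ac ⊆ q.ac
  fr : ∀ i j, i ≠ j → s(i, j) ∈ p.z → ∀ n, On (q.x i) n → On (q.x j) n →
    On (p.x i) n ∧ On (p.x j) n
  rq : ∀ t j, (t, j) ∈ p.ac → ∀ n, s(blk t n, j) ∈ q.z → s(blk t n, j) ∉ p.z →
    ∃ k v, On (q.x (blk t n)) k ∧ On (q.x j) k ∧ (q.g (rk t j))[n]? = some v ∧ v ≤ k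

/-- The conditions, before the requirement that the names are total. -/
inductive Pre : Type
  | mk (a : Core) (k : ℕ) (b : Fin k → Om) (c : Fin k → ℕ → ℕ → Pre) (m : Fin k → ℕ → ℕ → ℕ) : Pre

/-- A promise: the values of `g_γ` are above those of the function named by `c`, `m`. -/
structure Prm : Type where
  γ : Om
  c : ℕ → ℕ → Pre
  m : ℕ → ℕ → ℕ

/-- the core -/
def Pre.core : Pre → Core
  | .mk a _ _ _ _ => a

/-- the set of promises -/
def Pre.prom : Pre → Set Prm
  | .mk _ _ b c m => Set.range fun i => ⟨b i, c i, m i⟩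

/-- the same promises, another core -/
def Pre.setCore : Pre → Core → Pre
  | .mk _ k b c m, a => .mk a k b c m

@[simp] theorem core_setCore (p : Pre) (a : Core) : (p.setCore a).core = a := by
  cases p; rfl

@[simp] theorem prom_setCore (p : Pre) (a : Core) : (p.setCore a).prom = p.prom := by
  cases p; rfl

theorem prom_finite (p : Pre) : p.prom.Finite := by
  cases p
  exact Set.finite_range _

theorem exists_pre (a : Core) (S : Set Prm) (hS : S.Finite) : ∃ p : Pre, p.core = a ∧ p.prom = S := by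
  obtain ⟨k, f, hf⟩ : ∃ (k : ℕ) (f : Fin k → Prm), Set.range f = S := by
    have := hS.fintype
    refine ⟨Fintype.card S, fun i => ((Fintype.equivFin S).symm i).1, ?_⟩
    ext y
    constructor
    · rintro ⟨i, rfl⟩
      exact ((Fintype.equivFin S).symm i).2
    · intro hy
      exact ⟨Fintype.equivFin S ⟨y, hy⟩, by simp⟩
  refine ⟨.mk a k (fun i => (f i).γ) (fun i => (f i).c) (fun i => (f i).m), rfl, ?_⟩
  rw [← hf]
  rfl

theorem Pre.ind {motive : Pre → Prop}
    (h : ∀ p : Pre, (∀ x ∈ p.prom, ∀ n l, motive (x.c n l)) → motive p) : ∀ p, motive p := by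
  intro p
  induction p with
  | mk a k b c m ih =>
    apply h
    rintro _ ⟨i, rfl⟩ n l
    exact ih i n l

/-- The order of the conditions: `Le q p` says that `q` is stronger than `p`. -/
def Le (q : Pre) : Pre → Prop
  | .mk a k b c m => CLe q.core a ∧ ∀ i : Fin k, (⟨b i, c i, m i⟩ : Prm) ∈ q.prom ∧
      ∀ n v, (a.g (b i)).length ≤ n → (q.core.g (b i))[n]? = some v →
        ∃ l, Le q (c i n l) ∧ m i n l ≤ v

theorem le_iff {q p : Pre} : Le q p ↔ CLe q.core p.core ∧ ∀ x ∈ p.prom, x ∈ q.prom ∧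
    ∀ n v, (p.core.g x.γ).length ≤ n → (q.core.g x.γ)[n]? = some v →
      ∃ l, Le q (x.c n l) ∧ x.m n l ≤ v := by
  cases p with
  | mk a k b c m =>
    simp only [Le, Pre.core, Pre.prom, Set.forall_mem_range]

/-- the core mentions only dominating functions and activities of rank below `β` -/
structure Core.Bd (a : Core) (β : Om) : Prop where
  g : ∀ γ, a.g γ ≠ [] → γ < β
  ac : ∀ t j, (t, j) ∈ a.ac → rk t j < β

/-- the frozen pairs have rank below `β` -/
def Core.Cl (a : Core) (β : Om) : Prop := ∀ t n j, s(blk t n, j) ∈ a.z → rk t j < β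

/-- the name given by `c` is total, with respect to the set `Q` of conditions -/
def TotOf (β : Om) (Q : Pre → Prop) (c : ℕ → ℕ → Pre) : Prop :=
  (∀ n l, Q (c n l) ∧ (c n l).core.Cl β) ∧ ∀ n q, Q q → ∃ l r, Q r ∧ Le r q ∧ Le r (c n l)

/-- the conditions handled below `β` -/
noncomputable def PB : Om → Pre → Prop :=
  WellFounded.fix (wellFounded_lt (α := Om)) fun β ih p =>
    p.core.Bd β ∧ ∀ x ∈ p.prom, ∃ h : x.γ < β, TotOf x.γ (ih x.γ h) x.c

/-- a total name below `γ` -/
def Tot (γ : Om) (c : ℕ → ℕ → Pre) : Prop := TotOf γ (PB γ) c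

/-- all the names in the promises are total -/
def Good (p : Pre) : Prop := ∀ x ∈ p.prom, Tot x.γ x.c

theorem pb_iff {β : Om} {p : Pre} : PB β p ↔ p.core.Bd β ∧ (∀ x ∈ p.prom, x.γ < β) ∧ Good p := by
  unfold PB
  rw [WellFounded.fix_eq]
  constructor
  · rintro ⟨h1, h2⟩
    exact ⟨h1, fun x hx => (h2 x hx).1, fun x hx => (h2 x hx).2⟩
  · rintro ⟨h1, h2, h3⟩
    exact ⟨h1, fun x hx => ⟨h2 x hx, h3 x hx⟩⟩

theorem PB.good {β : Om} {p : Pre} (h : PB β p) : Good p := (pb_iff.1 h).2.2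

theorem PB.bd {β : Om} {p : Pre} (h : PB β p) : p.core.Bd β := (pb_iff.1 h).1

theorem PB.pr {β : Om} {p : Pre} (h : PB β p) : ∀ x ∈ p.prom, x.γ < β := (pb_iff.1 h).2.1

theorem Core.Bd.mono {a : Core} {β β' : Om} (h : a.Bd β) (hβ : β ≤ β') : a.Bd β' :=
  ⟨fun γ hγ => (h.g γ hγ).trans_le hβ, fun t j ht => (h.ac t j ht).trans_le hβ⟩

theorem Core.Cl.mono {a : Core} {β β' : Om} (h : a.Cl β) (hβ : β ≤ β') : a.Cl β' :=
  fun t n j ht => (h t n j ht).trans_le hβ

theorem PB.mono {β β' : Om} {p : Pre} (h : PB β p) (hβ : β ≤ β') : PB β' p :=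
  pb_iff.2 ⟨h.bd.mono hβ, fun x hx => (h.pr x hx).trans_le hβ, h.good⟩

theorem Tot.pb {γ : Om} {c : ℕ → ℕ → Pre} (h : Tot γ c) (n l : ℕ) : PB γ (c n l) := (h.1 n l).1

theorem Tot.cl {γ : Om} {c : ℕ → ℕ → Pre} (h : Tot γ c) (n l : ℕ) : (c n l).core.Cl γ := (h.1 n l).2

theorem on_mono {l l' : List Bool} (h : l <+: l') {n : ℕ} (hn : On l n) : On l' n := by
  obtain ⟨r, rfl⟩ := h
  unfold On at *
  rw [List.getElem?_append_left]
  · exact hn
  · by_contra hcon
    rw [List.getElem?_eq_none (not_lt.1 hcon)] at hn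
    exact absurd hn (by simp)

theorem on_lt {l : List Bool} {n : ℕ} (hn : On l n) : n < l.length := by
  by_contra hcon
  unfold On at hn
  rw [List.getElem?_eq_none (not_lt.1 hcon)] at hn
  exact absurd hn (by simp)

theorem on_of_lt {l l' : List Bool} (h : l <+: l') {n : ℕ} (hl : n < l.length) (hn : On l' n) :
    On l n := by
  obtain ⟨r, rfl⟩ := h
  unfold On at *
  rwa [List.getElem?_append_left hl] at hn

theorem get_mono {l l' : List ℕ} (h : l <+: l') {n v : ℕ} (hn : l[n]? = some v) :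
    l'[n]? = some v := by
  obtain ⟨r, rfl⟩ := h
  rw [List.getElem?_append_left]
  · exact hn
  · by_contra hcon
    rw [List.getElem?_eq_none (not_lt.1 hcon)] at hn
    exact absurd hn (by simp)

theorem get_lt {l : List ℕ} {n v : ℕ} (hn : l[n]? = some v) : n < l.length := by
  by_contra hcon
  rw [List.getElem?_eq_none (not_lt.1 hcon)] at hn
  exact absurd hn (by simp)

theorem get_of_lt {l l' : List ℕ} (h : l <+: l') {n v : ℕ} (hl : n < l.length)
    (hn : l'[n]? = some v) : l[n]? = some v := by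
  obtain ⟨r, rfl⟩ := h
  rwa [List.getElem?_append_left hl] at hn

theorem CLe.rfl' (p : Core) : CLe p p :=
  ⟨fun _ => List.prefix_rfl, fun _ => List.prefix_rfl, subset_rfl, subset_rfl,
    fun _ _ _ _ _ h1 h2 => ⟨h1, h2⟩, fun _ _ _ _ h1 h2 => absurd h1 h2⟩

theorem CLe.trans' {r q p : Core} (h : CLe r q) (h' : CLe q p) : CLe r p := by
  refine ⟨fun i => (h'.x i).trans (h.x i), fun i => (h'.g i).trans (h.g i), h'.z.trans h.z,
    h'.ac.trans h.ac, fun i k hne hik n h1 h2 => ?_, fun t j htj n h1 h2 => ?_⟩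
  · obtain ⟨h3, h4⟩ := h.fr i k hne (h'.z hik) n h1 h2
    exact h'.fr i k hne hik n h3 h4
  · by_cases h3 : s(blk t n, j) ∈ q.z
    · obtain ⟨k, v, h4, h5, h6, h7⟩ := h'.rq t j htj n h3 h2
      exact ⟨k, v, on_mono (h.x _) h4, on_mono (h.x _) h5, get_mono (h.g _) h6, h7⟩
    · exact h.rq t j (h'.ac htj) n h1 h3

theorem le_rfl' (p : Pre) : Le p p := by
  rw [le_iff]
  exact ⟨CLe.rfl' _, fun x hx => ⟨hx, fun n v h1 h2 => absurd (get_lt h2) (not_lt.2 h1)⟩⟩

theorem le_trans' {r q : Pre} (h : Le r q) : ∀ {p : Pre}, Le q p → Le r p := by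
  intro p
  induction p using Pre.ind with
  | h p ih =>
    intro hp
    rw [le_iff] at hp h ⊢
    refine ⟨h.1.trans' hp.1, fun x hx => ?_⟩
    obtain ⟨h1, h2⟩ := hp.2 x hx
    obtain ⟨h3, h4⟩ := h.2 x h1
    refine ⟨h3, fun n v hn hv => ?_⟩
    by_cases hq : n < (q.core.g x.γ).length
    · obtain ⟨l, h5, h6⟩ := h2 n v hn (get_of_lt (h.1.g _) hq hv)
      exact ⟨l, ih x hx n l h5, h6⟩
    · exact h4 n v (not_lt.1 hq) hv

end Pool.Agent.R594.Star
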