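import Mathlib
import Pool.Agent.R594.Star.Defs

/-!
# Restricting a condition
-/

namespace Pool.Agent.R594.Star

open Cardinal

open Classical in
/-- the core of the restriction -/
noncomputable def resCore (β : Om) (a : Core) : Core where
  x := a.x
  g γ := if γ < β then a.g γ else []
  z := a.z
  ac := {q | rk q.1 q.2 < β ∧ q ∈ a.ac}
  hx := a.hx
  hg := a.hg.subset fun i hi h => hi (by
    simp only [h, ite_self])
  hz := a.hz
  hac := a.hac.subset fun q hq => hq.2

theorem exists_res (β : Om) (p : Pre) : ∃ p' : Pre,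
    p'.core = resCore β p.core ∧ p'.prom = {x ∈ p.prom | x.γ < β} :=
  exists_pre _ _ ((prom_finite p).subset (Set.sep_subset _ _))

theorem resCore_g {β : Om} {a : Core} {γ : Om} (hj : γ < β) :
    (resCore β a).g γ = a.g γ := if_pos hj

theorem resCore_g' {β : Om} {a : Core} {γ : Om} (hj : ¬ γ < β) :
    (resCore β a).g γ = [] := if_neg hj

theorem res_pb {β : Om} {p p' : Pre} (hp : Good p)
    (h1 : p'.core = resCore β p.core) (h2 : p'.prom = {x ∈ p.prom | x.γ < β}) : PB β p' := by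
  rw [pb_iff]
  refine ⟨⟨fun γ hγ => ?_, fun t j htj => ?_⟩, fun x hx => ?_, fun x hx => ?_⟩
  · rw [h1] at hγ
    by_contra hcon
    exact hγ (resCore_g' hcon)
  · rw [h1] at htj
    exact htj.1
  · rw [h2] at hx
    exact hx.2
  · rw [h2] at hx
    exact hp x hx.1

theorem res_le {β : Om} {p p' : Pre} (h1 : p'.core = resCore β p.core)
    (h2 : p'.prom = {x ∈ p.prom | x.γ < β}) : ∀ {c : Pre}, PB β c → Le p c → Le p' c := by
  intro c
  induction c using Pre.ind with
  | h c ih =>
    intro hc hle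
    have hg : ∀ γ < β, p'.core.g γ = p.core.g γ := fun γ hγ => by rw [h1, resCore_g hγ]
    have hx : p'.core.x = p.core.x := by rw [h1]; rfl
    have hz : p'.core.z = p.core.z := by rw [h1]; rfl
    rw [le_iff] at hle ⊢
    refine ⟨⟨fun i => ?_, fun γ => ?_, ?_, ?_, ?_, ?_⟩, fun x hxc => ?_⟩
    · rw [hx]
      exact hle.1.x i
    · by_cases hγ : c.core.g γ = []
      · rw [hγ]
        exact List.nil_prefix
      · rw [hg γ (hc.bd.g γ hγ)]
        exact hle.1.g γ
    · rw [hz]
      exact hle.1.z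
    · rintro ⟨t, j⟩ htj
      rw [h1]
      exact ⟨hc.bd.ac t j htj, hle.1.ac htj⟩
    · rw [hx]
      exact hle.1.fr
    · intro t j htj n h5 h6
      rw [hz] at h5
      rw [hx, hg _ (hc.bd.ac t j htj)]
      exact hle.1.rq t j htj n h5 h6
    · obtain ⟨h3, h4⟩ := hle.2 x hxc
      have h5 := hc.pr x hxc
      refine ⟨?_, fun n v hn hv => ?_⟩
      · rw [h2]
        exact ⟨h3, h5⟩
      · rw [hg _ h5] at hv
        obtain ⟨l, h8, h9⟩ := h4 n v hn hv
        exact ⟨l, ih x hxc n l (((hc.good x hxc).pb n l).mono h5.le) h8, h9⟩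

/-- the pair has rank below `β` -/
def LowP (β : Om) (e : Sym2 Ix) : Prop := ∀ t n j, e = s(blk t n, j) → rk t j < β

open Classical in
/-- the core of the amalgam -/
noncomputable def amCore (β : Om) (p r : Core) : Core where
  x := r.x
  g γ := if γ < β then r.g γ else p.g γ
  z := p.z ∪ {e ∈ r.z | LowP β e}
  ac := p.ac ∪ r.ac
  hx := r.hx
  hg := (p.hg.union r.hg).subset fun i hi => by
    by_contra hcon
    simp only [Set.mem_union, not_or, Set.mem_ofPred_eq, not_not] at hcon
    exact hi (by simp only [hcon.1, hcon.2, ite_self])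
  hz := p.hz.union (r.hz.subset (Set.sep_subset _ _))
  hac := p.hac.union r.hac

theorem exists_am (β : Om) (p r : Pre) : ∃ q : Pre,
    q.core = amCore β p.core r.core ∧ q.prom = p.prom ∪ r.prom :=
  exists_pre _ _ ((prom_finite p).union (prom_finite r))

theorem amCore_g {β : Om} {a b : Core} {γ : Om} (hj : γ < β) :
    (amCore β a b).g γ = b.g γ := if_pos hj

theorem amCore_g' {β : Om} {a b : Core} {γ : Om} (hj : ¬ γ < β) :
    (amCore β a b).g γ = a.g γ := if_neg hj

theorem am_le' {β : Om} {p r p' q : Pre} (h1 : p'.core = resCore β p.core) (hle : Le r p')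
    (hq1 : q.core = amCore β p.core r.core) (hq2 : q.prom = p.prom ∪ r.prom) :
    ∀ {c : Pre}, PB β c → c.core.Cl β → Le r c → Le q c := by
  intro c
  have hle' := (le_iff.1 hle).1
  induction c using Pre.ind with
  | h c ih =>
    intro hc hcl hrc
    rw [le_iff] at hrc ⊢
    have hx : q.core.x = r.core.x := by rw [hq1]; rfl
    have hg : ∀ γ < β, q.core.g γ = r.core.g γ := fun γ hγ => by rw [hq1, amCore_g hγ]
    refine ⟨⟨fun i => ?_, fun γ => ?_, ?_, ?_, ?_, ?_⟩, fun x hxc => ?_⟩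
    · rw [hx]
      exact hrc.1.x i
    · by_cases hγ : c.core.g γ = []
      · rw [hγ]
        exact List.nil_prefix
      · rw [hg γ (hc.bd.g γ hγ)]
        exact hrc.1.g γ
    · intro e he
      rw [hq1]
      refine Or.inr ⟨hrc.1.z he, ?_⟩
      rintro t n j rfl
      exact hcl t n j he
    · rw [hq1]
      exact fun e he => Or.inr (hrc.1.ac he)
    · rw [hx]
      exact hrc.1.fr
    · intro t j htj n h5 h6
      have h7 : s(blk t n, j) ∈ r.core.z := by
        rw [hq1] at h5
        rcases h5 with h5 | h5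
        · apply hle'.z
          rw [h1]
          exact h5
        · exact h5.1
      rw [hx, hg _ (hc.bd.ac t j htj)]
      exact hrc.1.rq t j htj n h7 h6
    · obtain ⟨h3, h4⟩ := hrc.2 x hxc
      have h5 := hc.pr x hxc
      refine ⟨?_, fun n v hn hv => ?_⟩
      · rw [hq2]
        exact Or.inr h3
      · rw [hg _ h5] at hv
        obtain ⟨l, h8, h9⟩ := h4 n v hn hv
        exact ⟨l, ih x hxc n l (((hc.good x hxc).pb n l).mono h5.le)
          (((hc.good x hxc).cl n l).mono h5.le) h8, h9⟩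

theorem am_le {β : Om} {p r p' q : Pre} (hp : Good p) (h1 : p'.core = resCore β p.core)
    (h2 : p'.prom = {x ∈ p.prom | x.γ < β}) (hle : Le r p')
    (hq1 : q.core = amCore β p.core r.core) (hq2 : q.prom = p.prom ∪ r.prom) : Le q p := by
  have hle' := le_iff.1 hle
  have hx : q.core.x = r.core.x := by rw [hq1]; rfl
  have hx' : p'.core.x = p.core.x := by rw [h1]; rfl
  have hz' : p'.core.z = p.core.z := by rw [h1]; rfl
  have hg : ∀ γ < β, q.core.g γ = r.core.g γ := fun γ hγ => by rw [hq1, amCore_g hγ]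
  have hg' : ∀ γ, ¬ γ < β → q.core.g γ = p.core.g γ := fun γ hγ => by rw [hq1, amCore_g' hγ]
  have hg'' : ∀ γ < β, p'.core.g γ = p.core.g γ := fun γ hγ => by rw [h1, resCore_g hγ]
  rw [le_iff]
  refine ⟨⟨fun i => ?_, fun γ => ?_, ?_, ?_, ?_, ?_⟩, fun x hxp => ?_⟩
  · rw [hx, ← hx']
    exact hle'.1.x i
  · by_cases hγ : γ < β
    · rw [hg γ hγ, ← hg'' γ hγ]
      exact hle'.1.g γ
    · rw [hg' γ hγ]
  · rw [hq1]
    exact fun _ h => Or.inl h
  · rw [hq1]
    exact fun _ h => Or.inl h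
  · rw [hx, ← hx', ← hz']
    exact hle'.1.fr
  · intro t j htj n h5 h6
    rw [hq1] at h5
    rcases h5 with h5 | ⟨h5, h7⟩
    · exact absurd h5 h6
    have h8 : rk t j < β := h7 t n j rfl
    have h9 : (t, j) ∈ p'.core.ac := by
      rw [h1]
      exact ⟨h8, htj⟩
    rw [hx, hg _ h8]
    rw [← hz'] at h6
    exact hle'.1.rq t j h9 n h5 h6
  · refine ⟨?_, fun n v hn hv => ?_⟩
    · rw [hq2]
      exact Or.inl hxp
    · by_cases hγ : x.γ < β
      · rw [hg _ hγ] at hv
        rw [← hg'' _ hγ] at hn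
        have hxp' : x ∈ p'.prom := by
          rw [h2]
          exact ⟨hxp, hγ⟩
        obtain ⟨l, h8, h9⟩ := (hle'.2 x hxp').2 n v hn hv
        exact ⟨l, am_le' h1 hle hq1 hq2 (((hp x hxp).pb n l).mono hγ.le)
          (((hp x hxp).cl n l).mono hγ.le) h8, h9⟩
      · rw [hg' _ hγ] at hv
        exact absurd (get_lt hv) (not_lt.2 hn)

/-- The restriction of a condition to `β`. -/
theorem exists_red (β : Om) {p : Pre} (hp : Good p) :
    ∃ p', PB β p' ∧ (∀ c, PB β c → Le p c → Le p' c) ∧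
      ∀ r, PB β r → Le r p' → ∃ q, Good q ∧ Le q p ∧
        (∀ c, PB β c → c.core.Cl β → Le r c → Le q c) ∧
        (∀ γ, ¬ γ < β → q.core.g γ = p.core.g γ) ∧ (∀ x ∈ q.prom, ¬ x.γ < β → x ∈ p.prom) ∧
        ∀ β', β ≤ β' → PB β' p → PB β' q := by
  obtain ⟨p', h1, h2⟩ := exists_res β p
  refine ⟨p', res_pb hp h1 h2, fun c hc hle => res_le h1 h2 hc hle, fun r hr hle => ?_⟩
  obtain ⟨q, hq1, hq2⟩ := exists_am β p r
  have hgood : Good q := by
    intro x hx
    rw [hq2] at hx
    rcases hx with hx | hx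
    · exact hp x hx
    · exact hr.good x hx
  refine ⟨q, hgood, am_le hp h1 h2 hle hq1 hq2, fun c hc hcl hrc => am_le' h1 hle hq1 hq2 hc hcl hrc,
    fun γ hγ => by rw [hq1, amCore_g' hγ], fun x hx hγ => ?_, fun β' hβ hpβ => ?_⟩
  · rw [hq2] at hx
    rcases hx with hx | hx
    · exact hx
    · exact absurd (hr.pr x hx) hγ
  · rw [pb_iff]
    refine ⟨⟨fun γ hγ => ?_, fun t j htj => ?_⟩, fun x hx => ?_, hgood⟩
    · rw [hq1] at hγ
      by_cases h : γ < β
      · exact h.trans_le hβ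
      · rw [amCore_g' h] at hγ
        exact hpβ.bd.g γ hγ
    · rw [hq1] at htj
      rcases htj with htj | htj
      · exact hpβ.bd.ac t j htj
      · exact (hr.bd.ac t j htj).trans_le hβ
    · rw [hq2] at hx
      rcases hx with hx | hx
      · exact hpβ.pr x hx
      · exact (hr.pr x hx).trans_le hβ

/-- A total name below `β` is a total name below every larger `β'`. -/
theorem Tot.mono {β β' : Om} {c : ℕ → ℕ → Pre} (hc : Tot β c) (hβ : β ≤ β') : Tot β' c := by
  refine ⟨fun n l => ⟨(hc.pb n l).mono hβ, (hc.cl n l).mono hβ⟩, fun n q hq => ?_⟩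
  obtain ⟨q', h1, -, h2⟩ := exists_red β hq.good
  obtain ⟨l, r, hr, h3, h4⟩ := hc.2 n q' h1
  obtain ⟨u, -, hu1, hu2, -, -, hu3⟩ := h2 r hr h3
  exact ⟨l, u, hu3 β' hβ hq, hu1, hu2 _ (hc.pb n l) (hc.cl n l) h4⟩

end Pool.Agent.R594.Star
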