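import Mathlib
import Pool.Agent.R594.Star.Red

/-!
# Extending conditions
-/

namespace Pool.Agent.R594.Star

open Cardinal

theorem good_setCore {p : Pre} {a : Core} : Good (p.setCore a) ↔ Good p := by
  unfold Good
  rw [prom_setCore]

theorem le_setCore {p : Pre} {a : Core} (hg : a.g = p.core.g) (h : CLe a p.core) :
    Le (p.setCore a) p := by
  rw [le_iff, core_setCore, prom_setCore]
  refine ⟨h, fun x hx => ⟨hx, fun n v hn hv => ?_⟩⟩
  rw [hg] at hv
  exact absurd (get_lt hv) (not_lt.2 hn)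

/-- the sequence, made longer -/
def padL (m : ℕ) (l : List Bool) : List Bool := l ++ List.replicate (m - l.length) false

theorem on_padL {m n : ℕ} {l : List Bool} : On (padL m l) n ↔ On l n := by
  refine ⟨fun h => ?_, fun h => on_mono (List.prefix_append _ _) h⟩
  by_cases hn : n < l.length
  · exact on_of_lt (List.prefix_append _ _) hn h
  · exfalso
    unfold On padL at h
    rw [List.getElem?_append_right (not_lt.1 hn), List.getElem?_replicate] at h
    split_ifs at h
    · simp at h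

theorem length_padL {m : ℕ} {l : List Bool} (h : l.length ≤ m) : (padL m l).length = m := by
  simp only [padL, List.length_append, List.length_replicate]
  omega

/-- all the sequences which are not empty have length `m` -/
structure Norm (a : Core) (m : ℕ) : Prop where
  x : ∀ i, a.x i ≠ [] → (a.x i).length = m
  z : ∀ i k, s(i, k) ∈ a.z → (a.x i).length = m

/-- the same condition apart from the lengths of the sequences -/
structure Pd (q p : Pre) : Prop where
  good : Good q
  le : Le q p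
  prom : q.prom = p.prom
  g : q.core.g = p.core.g
  z : q.core.z = p.core.z
  ac : q.core.ac = p.core.ac

theorem finite_ends {z : Set (Sym2 Ix)} (hz : z.Finite) : {i | ∃ k, s(i, k) ∈ z}.Finite := by
  classical
  have h : (⋃ e ∈ z, {i | i ∈ e}).Finite := by
    refine hz.biUnion fun e _ => ?_
    induction e using Sym2.ind with
    | _ a b =>
      refine ((Set.finite_singleton a).union (Set.finite_singleton b)).subset ?_
      intro i hi
      rcases Sym2.mem_iff.1 hi with h | h
      · exact Or.inl h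
      · exact Or.inr h
  refine h.subset ?_
  rintro i ⟨k, hk⟩
  exact Set.mem_biUnion hk (Sym2.mem_mk_left i k)

open Classical in
theorem exists_norm {p : Pre} (hp : Good p) {s : Set Ix} (hs : s.Finite) (M : ℕ) :
    ∃ q m, Pd q p ∧ M ≤ m ∧ Norm q.core m ∧ (∀ i ∈ s, (q.core.x i).length = m) ∧
      ∀ i n, On (q.core.x i) n ↔ On (p.core.x i) n := by
  let s' : Set Ix := s ∪ ({i | p.core.x i ≠ []} ∪ {i | ∃ k, s(i, k) ∈ p.core.z})
  have hs' : s'.Finite := hs.union (p.core.hx.union (finite_ends p.core.hz))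
  obtain ⟨B, hB⟩ := (hs'.image fun i => (p.core.x i).length).bddAbove
  have hB' : ∀ i ∈ s', (p.core.x i).length ≤ max M B := fun i hi =>
    (hB ⟨i, hi, rfl⟩).trans (le_max_right _ _)
  have hout : ∀ i, i ∉ s' → p.core.x i = [] := by
    intro i hi
    by_contra hcon
    exact hi (Or.inr (Or.inl hcon))
  let a : Core :=
    { x := fun i => if i ∈ s' then padL (max M B) (p.core.x i) else p.core.x i
      g := p.core.g
      z := p.core.z
      ac := p.core.ac
      hx := hs'.subset fun i hi => by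
        by_contra hcon
        exact hi (by simp only [if_neg hcon, hout i hcon])
      hg := p.core.hg
      hz := p.core.hz
      hac := p.core.hac }
  have hax : ∀ i ∈ s', a.x i = padL (max M B) (p.core.x i) := fun i hi => if_pos hi
  have hax' : ∀ i, i ∉ s' → a.x i = p.core.x i := fun i hi => if_neg hi
  have hon : ∀ i n, On (a.x i) n ↔ On (p.core.x i) n := by
    intro i n
    by_cases hi : i ∈ s'
    · rw [hax i hi, on_padL]
    · rw [hax' i hi]
  have hlen : ∀ i ∈ s', (a.x i).length = max M B := by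
    intro i hi
    rw [hax i hi, length_padL (hB' i hi)]
  have hle : CLe a p.core := by
    refine ⟨fun i => ?_, fun _ => List.prefix_rfl, subset_rfl, subset_rfl,
      fun i j _ hij n h1 h2 => ⟨(hon _ _).1 h1, (hon _ _).1 h2⟩,
      fun t j _ n h1 h2 => absurd h1 h2⟩
    by_cases hi : i ∈ s'
    · rw [hax i hi]
      exact List.prefix_append _ _
    · rw [hax' i hi]
  refine ⟨p.setCore a, max M B, ⟨good_setCore.2 hp, le_setCore rfl hle, prom_setCore _ _,
    ?_, ?_, ?_⟩, le_max_left _ _, ?_, ?_, ?_⟩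
  · rw [core_setCore]
  · rw [core_setCore]
  · rw [core_setCore]
  · rw [core_setCore]
    refine ⟨fun i hi => ?_, fun i k hik => hlen _ ?_⟩
    · by_cases hi' : i ∈ s'
      · exact hlen i hi'
      · exact absurd (by rw [hax' i hi', hout i hi']) hi
    · exact Or.inr (Or.inr ⟨k, hik⟩)
  · intro i hi
    rw [core_setCore]
    exact hlen i (Or.inl hi)
  · rw [core_setCore]
    exact hon

open Classical in
theorem exists_add {p : Pre} (hp : Good p) {s : Set Ix} (hs : s.Finite) (M : ℕ)
    (hsep : ∀ i j, s(i, j) ∈ p.core.z → i ∈ s → j ∈ s → i = j) :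
    ∃ q k, Pd q p ∧ M ≤ k ∧ ∀ i ∈ s, On (q.core.x i) k := by
  obtain ⟨p0, m, hp0, hM, hnorm, hlen, hon⟩ := exists_norm hp hs M
  let a : Core :=
    { x := fun i => if i ∈ s then p0.core.x i ++ [true] else p0.core.x i
      g := p0.core.g
      z := p0.core.z
      ac := p0.core.ac
      hx := (hs.union p0.core.hx).subset fun i hi => by
        by_contra hcon
        simp only [Set.mem_union, not_or, Set.mem_ofPred_eq, not_not] at hcon
        exact hi (by simp only [if_neg hcon.1, hcon.2])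
      hg := p0.core.hg
      hz := p0.core.hz
      hac := p0.core.hac }
  have hax : ∀ i ∈ s, a.x i = p0.core.x i ++ [true] := fun i hi => if_pos hi
  have hax' : ∀ i, i ∉ s → a.x i = p0.core.x i := fun i hi => if_neg hi
  have hpre : ∀ i, p0.core.x i <+: a.x i := by
    intro i
    by_cases hi : i ∈ s
    · rw [hax i hi]
      exact List.prefix_append _ _
    · rw [hax' i hi]
  have hle : CLe a p0.core := by
    refine ⟨hpre, fun _ => List.prefix_rfl, subset_rfl, subset_rfl,
      fun i j hne hij n h1 h2 => ?_, fun t j _ n h1 h2 => absurd h1 h2⟩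
    have h3 := hnorm.z i j hij
    have h4 := hnorm.z j i (by rw [Sym2.eq_swap]; exact hij)
    by_cases hn : n < m
    · exact ⟨on_of_lt (hpre i) (h3 ▸ hn) h1, on_of_lt (hpre _) (h4 ▸ hn) h2⟩
    · exfalso
      have h5 : i ∈ s := by
        by_contra hcon
        rw [hax' i hcon] at h1
        have := on_lt h1
        omega
      have h6 : j ∈ s := by
        by_contra hcon
        rw [hax' _ hcon] at h2
        have := on_lt h2
        omega
      rw [hp0.z] at hij
      exact hne (hsep i j hij h5 h6)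
  have hle' : Le (p0.setCore a) p0 := le_setCore rfl hle
  refine ⟨p0.setCore a, m, ⟨good_setCore.2 hp0.good, le_trans' hle' hp0.le, ?_, ?_, ?_, ?_⟩,
    hM, ?_⟩
  · rw [prom_setCore, hp0.prom]
  · rw [core_setCore]
    exact hp0.g
  · rw [core_setCore]
    exact hp0.z
  · rw [core_setCore]
    exact hp0.ac
  · intro i hi
    rw [core_setCore, hax i hi]
    unfold On
    rw [List.getElem?_append_right (hlen i hi).le, hlen i hi]
    simp

/-- a total name is decided by an extension which only changes the part below `β` -/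
theorem exists_decide {β : Om} {c : ℕ → ℕ → Pre} (hc : Tot β c) {p : Pre} (hp : Good p) (n : ℕ) :
    ∃ q l, Good q ∧ Le q p ∧ Le q (c n l) ∧ (∀ γ, ¬ γ < β → q.core.g γ = p.core.g γ) ∧
      ∀ x ∈ q.prom, ¬ x.γ < β → x ∈ p.prom := by
  obtain ⟨p', h1, -, h2⟩ := exists_red β hp
  obtain ⟨l, r, hr, h3, h4⟩ := hc.2 n p' h1
  obtain ⟨q, hq, h5, h6, h7, h8, -⟩ := h2 r hr h3
  exact ⟨q, l, hq, h5, h6 _ (hc.pb n l) (hc.cl n l) h4, h7, h8⟩

theorem exists_decide_fin {β : Om} (L : ℕ) {Φ : Set Prm} (hΦ : Φ.Finite) {p : Pre} (hp : Good p)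
    (h : ∀ x ∈ Φ, Tot β x.c) :
    ∃ q, Good q ∧ Le q p ∧ (∀ x ∈ Φ, ∃ l, Le q (x.c L l)) ∧
      (∀ γ, ¬ γ < β → q.core.g γ = p.core.g γ) ∧ ∀ x ∈ q.prom, ¬ x.γ < β → x ∈ p.prom := by
  induction Φ, hΦ using Set.Finite.induction_on with
  | empty => exact ⟨p, hp, le_rfl' p, fun x hx => absurd hx (Set.notMem_empty _), fun _ _ => rfl,
      fun x hx _ => hx⟩
  | @insert x Φ _ _ ih =>
    obtain ⟨q, hq, h1, h2, h3, h4⟩ := ih fun y hy => h y (Set.mem_insert_of_mem _ hy)
    obtain ⟨q', l, hq', h5, h6, h7, h8⟩ := exists_decide (h x (Set.mem_insert _ _)) hq L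
    refine ⟨q', hq', le_trans' h5 h1, ?_, fun γ hγ => ?_, fun y hy hγ => h4 y (h8 y hy hγ) hγ⟩
    · rintro y (rfl | hy)
      · exact ⟨l, h6⟩
      · obtain ⟨l', hl'⟩ := h2 y hy
        exact ⟨l', le_trans' h5 hl'⟩
    · rw [h7 γ hγ, h3 γ hγ]

open Classical in
/-- the core with one more value of `g_β` -/
noncomputable def gCore (a : Core) (β : Om) (v : ℕ) : Core :=
  { x := a.x
    g := fun γ => if γ = β then a.g γ ++ [v] else a.g γ
    z := a.z
    ac := a.ac
    hx := a.hx
    hg := ((Set.finite_singleton β).union a.hg).subset fun i hi => by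
      by_contra hcon
      simp only [Set.mem_union, Set.mem_singleton_iff, not_or, Set.mem_ofPred_eq, not_not] at hcon
      exact hi (by simp only [if_neg hcon.1, hcon.2])
    hz := a.hz
    hac := a.hac }

theorem gCore_self {a : Core} {β : Om} {v : ℕ} : (gCore a β v).g β = a.g β ++ [v] := if_pos rfl

theorem gCore_ne {a : Core} {β γ : Om} {v : ℕ} (h : γ ≠ β) : (gCore a β v).g γ = a.g γ := if_neg h

theorem gCore_pre {a : Core} {β γ : Om} {v : ℕ} : a.g γ <+: (gCore a β v).g γ := by
  by_cases h : γ = β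
  · subst h
    rw [gCore_self]
    exact List.prefix_append _ _
  · rw [gCore_ne h]

theorem gCore_cle {a c : Core} {β : Om} {v : ℕ} (h : CLe a c) : CLe (gCore a β v) c := by
  refine ⟨h.x, fun γ => (h.g γ).trans gCore_pre, h.z, h.ac, h.fr, fun t j htj n h1 h2 => ?_⟩
  obtain ⟨k, w, h3, h4, h5, h6⟩ := h.rq t j htj n h1 h2
  exact ⟨k, w, h3, h4, get_mono gCore_pre h5, h6⟩

theorem gCore_le {q : Pre} {β : Om} {v : ℕ} {c : Pre} (hc : PB β c) :
    Le q c → Le (q.setCore (gCore q.core β v)) c := by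
  induction c using Pre.ind with
  | h c ih =>
    intro h
    rw [le_iff] at h ⊢
    rw [core_setCore, prom_setCore]
    refine ⟨gCore_cle h.1, fun x hx => ⟨(h.2 x hx).1, fun n w hn hw => ?_⟩⟩
    have h1 := hc.pr x hx
    rw [gCore_ne (ne_of_lt h1)] at hw
    obtain ⟨l, h3, h4⟩ := (h.2 x hx).2 n w hn hw
    exact ⟨l, ih x hx n l (((hc.good x hx).pb n l).mono h1.le) h3, h4⟩

theorem exists_g_succ (β : Om) {p : Pre} (hp : Good p) :
    ∃ q, Good q ∧ Le q p ∧ (p.core.g β).length < (q.core.g β).length := by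
  obtain ⟨q, hq, h1, h2, h3, h4⟩ := exists_decide_fin (β := β) (p.core.g β).length
    (Φ := {x ∈ p.prom | x.γ = β}) ((prom_finite p).subset (Set.sep_subset _ _)) hp (by
      rintro x ⟨hx, rfl⟩
      exact hp x hx)
  choose! l hl using h2
  obtain ⟨B, hB⟩ := (((prom_finite p).subset (Set.sep_subset _ (fun x => x.γ = β))).image
    fun x => x.m (p.core.g β).length (l x)).bddAbove
  have hself : (gCore q.core β B).g β = p.core.g β ++ [B] := by
    rw [gCore_self, h3 β (lt_irrefl _)]
  refine ⟨q.setCore (gCore q.core β B), good_setCore.2 hq, ?_, ?_⟩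
  · have h1' := le_iff.1 h1
    rw [le_iff, core_setCore, prom_setCore]
    refine ⟨gCore_cle h1'.1, fun x hx => ⟨(h1'.2 x hx).1, fun n w hn hw => ?_⟩⟩
    have hW : ∀ {n l}, x.γ ≤ β → PB β (x.c n l) := fun hβ => ((hp x hx).pb _ _).mono hβ
    rcases lt_trichotomy x.γ β with hγ | hγ | hγ
    · rw [gCore_ne hγ.ne] at hw
      obtain ⟨l', h5, h6⟩ := (h1'.2 x hx).2 n w hn hw
      exact ⟨l', gCore_le (hW hγ.le) h5, h6⟩
    · have hx' : x ∈ {x ∈ p.prom | x.γ = β} := ⟨hx, hγ⟩
      rw [hγ, hself] at hw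
      rw [hγ] at hn
      have hn' : n = (p.core.g β).length := by
        have := get_lt hw
        rw [List.length_append, List.length_singleton] at this
        omega
      subst hn'
      have hw' : w = B := by
        rw [List.getElem?_append_right le_rfl] at hw
        simpa using hw.symm
      subst hw'
      exact ⟨l x, gCore_le (hW hγ.le) (hl x hx'), hB ⟨x, hx', rfl⟩⟩
    · rw [gCore_ne hγ.ne', h3 _ (not_lt.2 hγ.le)] at hw
      exact absurd (get_lt hw) (not_lt.2 hn)
  · rw [core_setCore, hself, List.length_append, List.length_singleton]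
    omega

theorem exists_g (β : Om) (n : ℕ) {p : Pre} (hp : Good p) :
    ∃ q, Good q ∧ Le q p ∧ n < (q.core.g β).length := by
  induction n with
  | zero =>
    obtain ⟨q, h1, h2, h3⟩ := exists_g_succ β hp
    exact ⟨q, h1, h2, by omega⟩
  | succ n ih =>
    obtain ⟨q, h1, h2, h3⟩ := ih
    obtain ⟨q', h4, h5, h6⟩ := exists_g_succ β h1
    exact ⟨q', h4, le_trans' h5 h2, by omega⟩

theorem exists_val (β : Om) (n : ℕ) {p : Pre} (hp : Good p) :
    ∃ q v, Good q ∧ Le q p ∧ (q.core.g β)[n]? = some v := by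
  obtain ⟨q, h1, h2, h3⟩ := exists_g β n hp
  exact ⟨q, (q.core.g β)[n], h1, h2, List.getElem?_eq_getElem h3⟩

/-- adding a promise -/
theorem exists_promise {p : Pre} (hp : Good p) {x : Prm} (hx : Tot x.γ x.c) :
    ∃ q, Good q ∧ Le q p ∧ x ∈ q.prom := by
  obtain ⟨q, h1, h2⟩ := exists_pre p.core (insert x p.prom) ((prom_finite p).insert x)
  refine ⟨q, ?_, ?_, ?_⟩
  · intro y hy
    rw [h2] at hy
    rcases hy with rfl | hy
    · exact hx
    · exact hp y hy
  · rw [le_iff, h1, h2]
    exact ⟨CLe.rfl' _, fun y hy => ⟨Or.inr hy, fun n v hn hv =>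
      absurd (get_lt hv) (not_lt.2 hn)⟩⟩
  · rw [h2]
    exact Set.mem_insert _ _

/-- adding an activity -/
theorem exists_ac {p : Pre} (hp : Good p) (t : Tk) (j : Ix) :
    ∃ q, Good q ∧ Le q p ∧ (t, j) ∈ q.core.ac := by
  let a : Core := { p.core with ac := insert (t, j) p.core.ac, hac := p.core.hac.insert _ }
  refine ⟨p.setCore a, good_setCore.2 hp, le_setCore rfl ⟨fun _ => List.prefix_rfl,
    fun _ => List.prefix_rfl, subset_rfl, Set.subset_insert _ _, fun _ _ _ _ _ h1 h2 => ⟨h1, h2⟩,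
    fun _ _ _ _ h1 h2 => absurd h1 h2⟩, ?_⟩
  rw [core_setCore]
  exact Set.mem_insert _ _

/-- the values of the dominating functions needed to freeze a pair -/
theorem exists_vals (i j : Ix) {p : Pre} (hp : Good p) :
    ∃ q B, Good q ∧ Le q p ∧ ∀ t n, blk t n = i → ∃ v, (q.core.g (rk t j))[n]? = some v ∧ v ≤ B := by
  by_cases h : ∃ t n, blk t n = i
  · obtain ⟨t, n, rfl⟩ := h
    obtain ⟨q, v, h1, h2, h3⟩ := exists_val (rk t j) n hp
    refine ⟨q, v, h1, h2, fun t' n' he => ?_⟩
    obtain ⟨rfl, rfl⟩ := blk_inj he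
    exact ⟨v, h3, le_rfl⟩
  · exact ⟨p, 0, hp, le_rfl' p, fun t n he => absurd ⟨t, n, he⟩ h⟩

/-- freezing a pair -/
theorem exists_z {p : Pre} (hp : Good p) {i j : Ix} (hij : i ≠ j) :
    ∃ q, Good q ∧ Le q p ∧ s(i, j) ∈ q.core.z := by
  obtain ⟨q1, B1, h1, h2, h3⟩ := exists_vals i j hp
  obtain ⟨q2, B2, h4, h5, h6⟩ := exists_vals j i h1
  by_cases hz : s(i, j) ∈ q2.core.z
  · exact ⟨q2, h4, le_trans' h5 h2, hz⟩
  obtain ⟨q3, k, h7, h8, h9⟩ := exists_add h4 (s := {i, j}) (by simp) (max B1 B2) (by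
    rintro a b hab (rfl | ha) (rfl | hb)
    · rfl
    · rw [Set.mem_singleton_iff] at hb
      subst hb
      exact absurd hab hz
    · rw [Set.mem_singleton_iff] at ha
      subst ha
      rw [Sym2.eq_swap] at hab
      exact absurd hab hz
    · rw [Set.mem_singleton_iff] at ha hb
      rw [ha, hb])
  let a : Core := { q3.core with z := insert s(i, j) q3.core.z, hz := q3.core.hz.insert _ }
  have hle : Le (q3.setCore a) q3 := by
    refine le_setCore rfl ⟨fun _ => List.prefix_rfl, fun _ => List.prefix_rfl,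
      Set.subset_insert _ _, subset_rfl, fun _ _ _ _ _ h1 h2 => ⟨h1, h2⟩,
      fun t j' htj n h10 h11 => ?_⟩
    have h12 : s(blk t n, j') = s(i, j) := by
      rcases h10 with h10 | h10
      · exact h10
      · exact absurd h10 h11
    have hi : On (q3.core.x i) k := h9 i (Set.mem_insert _ _)
    have hj : On (q3.core.x j) k := h9 j (Set.mem_insert_of_mem _ rfl)
    rcases Sym2.eq_iff.1 h12 with ⟨h13, h14⟩ | ⟨h13, h14⟩
    · subst h14
      obtain ⟨v, h15, h16⟩ := h3 t n h13
      refine ⟨k, v, ?_, hj, ?_, h16.trans ((le_max_left _ _).trans h8)⟩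
      · change On (q3.core.x (blk t n)) k
        rw [h13]
        exact hi
      · change (q3.core.g (rk t j'))[n]? = some v
        rw [h7.g]
        exact get_mono ((le_iff.1 h5).1.g _) h15
    · subst h14
      obtain ⟨v, h15, h16⟩ := h6 t n h13
      refine ⟨k, v, ?_, hi, ?_, h16.trans ((le_max_right _ _).trans h8)⟩
      · change On (q3.core.x (blk t n)) k
        rw [h13]
        exact hj
      · change (q3.core.g (rk t j'))[n]? = some v
        rw [h7.g]
        exact h15
  refine ⟨q3.setCore a, good_setCore.2 h7.good, le_trans' hle (le_trans' h7.le (le_trans' h5 h2)),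
    ?_⟩
  rw [core_setCore]
  exact Set.mem_insert _ _

theorem exists_on {p : Pre} (hp : Good p) (i : Ix) (M : ℕ) :
    ∃ q k, Good q ∧ Le q p ∧ M ≤ k ∧ On (q.core.x i) k := by
  obtain ⟨q, k, h1, h2, h3⟩ := exists_add hp (s := {i}) (by simp) M (by
    rintro i' j' _ hi hj
    rw [Set.mem_singleton_iff] at hi hj
    rw [hi, hj])
  exact ⟨q, k, h1.good, h1.le, h2, h3 i rfl⟩

/-! ### Names are total below some `β` -/

open Set

theorem mk_Om : #Om = ℵ_ 1 := Cardinal.mk_ord_toType _

theorem om_uncountable : Uncountable Om := by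
  rw [← Cardinal.aleph0_lt_mk_iff]
  simp

theorem Iio_countable (x : Om) : (Iio x).Countable := by
  have h : #(Iio x) < #Om := Cardinal.mk_Iio_lt x (by
    rw [mk_Om]
    exact (Ordinal.type_toType _).symm)
  have h2 : #(Iio x) < Order.succ Cardinal.aleph0 := by
    rw [Cardinal.succ_aleph0]
    exact h.trans_le mk_Om.le
  rw [← Cardinal.le_aleph0_iff_set_countable]
  exact Order.lt_succ_iff.1 h2

theorem Iic_countable (x : Om) : (Iic x).Countable := by
  rw [← Iio_union_right]
  exact (Iio_countable x).union (countable_singleton x)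

theorem countable_bdd {s : Set Om} (hs : s.Countable) : ∃ γ, ∀ x ∈ s, x < γ := by
  by_contra hcon
  push Not at hcon
  have h : (univ : Set Om) ⊆ ⋃ x ∈ s, Iic x := fun γ _ => by
    obtain ⟨x, hx, h⟩ := hcon γ
    exact mem_iUnion₂.2 ⟨x, hx, h⟩
  have := om_uncountable
  exact not_countable (α := Om)
    (countable_univ_iff.1 ((hs.biUnion fun x _ => Iic_countable x).mono h))

/-- the ordinals which matter for a condition -/
def ords (p : Pre) : Set Om :=
  {γ | p.core.g γ ≠ []} ∪ ((fun q : Tk × Ix => rk q.1 q.2) '' p.core.ac ∪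
    (Prm.γ '' p.prom ∪ {γ | ∃ t n j, s(blk t n, j) ∈ p.core.z ∧ rk t j = γ}))

theorem ords_countable (p : Pre) : (ords p).Countable := by
  refine p.core.hg.countable.union ((p.core.hac.countable.image _).union
    (((prom_finite p).countable.image _).union ?_))
  have h1 : {t : Tk | ∃ n j, s(blk t n, j) ∈ p.core.z}.Finite := by
    have h2 : {tn : Tk × ℕ | ∃ j, s(blk tn.1 tn.2, j) ∈ p.core.z}.Finite :=
      (finite_ends p.core.hz).preimage (f := fun tn : Tk × ℕ => blk tn.1 tn.2) (by
        rintro ⟨t, n⟩ _ ⟨t', n'⟩ _ h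
        obtain ⟨rfl, rfl⟩ := blk_inj h
        rfl)
    refine (h2.image Prod.fst).subset ?_
    rintro t ⟨n, j, h⟩
    exact ⟨(t, n), ⟨j, h⟩, rfl⟩
  have h3 : {j : Ix | ∃ i, s(j, i) ∈ p.core.z}.Finite := finite_ends p.core.hz
  refine ((h1.prod h3).image (fun q : Tk × Ix => rk q.1 q.2)).countable.mono ?_
  rintro γ ⟨t, n, j, h, rfl⟩
  exact ⟨(t, j), ⟨⟨n, j, h⟩, ⟨blk t n, by rw [Sym2.eq_swap]; exact h⟩⟩, rfl⟩

theorem pb_of_ords {β : Om} {p : Pre} (hp : Good p) (h : ∀ γ ∈ ords p, γ < β) :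
    PB β p ∧ p.core.Cl β := by
  refine ⟨pb_iff.2 ⟨⟨fun γ hγ => h γ (Or.inl hγ), fun t j htj => h _ (Or.inr (Or.inl ⟨(t, j), htj,
    rfl⟩))⟩, fun x hx => h _ (Or.inr (Or.inr (Or.inl ⟨x, hx, rfl⟩))), hp⟩, fun t n j htj =>
      h _ (Or.inr (Or.inr (Or.inr ⟨t, n, j, htj, rfl⟩)))⟩

/-- names which are total are total below some `β` -/
theorem exists_tot (c : ℕ → ℕ → Pre) (hc : ∀ n l, Good (c n l))
    (hd : ∀ n p, Good p → ∃ l q, Good q ∧ Le q p ∧ Le q (c n l)) : ∃ β, Tot β c := by
  obtain ⟨β, hβ⟩ := countable_bdd (countable_iUnion fun n => countable_iUnion fun l =>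
    ords_countable (c n l))
  have hW : ∀ n l, PB β (c n l) ∧ (c n l).core.Cl β := fun n l => pb_of_ords (hc n l)
    fun γ hγ => hβ γ (mem_iUnion₂.2 ⟨n, l, hγ⟩)
  refine ⟨β, hW, fun n q hq => ?_⟩
  obtain ⟨l, r, hr, h3, h4⟩ := hd n q hq.good
  obtain ⟨p', h5, h6, -⟩ := exists_red β hr
  exact ⟨l, p', h5, h6 _ hq h3, h6 _ (hW n l).1 h4⟩

end Pool.Agent.R594.Star
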