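import Mathlib
import Pool.Agent.Helper126.Fact
import Pool.Agent.W876.Two.Gen
import Pool.Agent.R594.Star.Dens

/-!
# The countable chain condition
-/

namespace Pool.Agent.R594.Star

open Cardinal Set

/-- The conditions. -/
def Cd : Type := {p : Pre // Good p}

instance : Preorder Cd where
  le q p := Le q.1 p.1
  le_refl p := le_rfl' p.1
  le_trans _ _ _ h h' := le_trans' h h'

theorem cd_le {q p : Cd} : q ≤ p ↔ Le q.1 p.1 := Iff.rfl

/-- finite sets of tasks, indices and ordinals containing those of `p` -/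
structure Sup (p : Pre) (TT : Set Tk) (YY : Set Ix) (GG : Set Om) : Prop where
  x : ∀ i, p.core.x i ≠ [] → i ∈ YY
  z : ∀ i j, s(i, j) ∈ p.core.z → i ∈ YY
  zt : ∀ t n j, s(blk t n, j) ∈ p.core.z → t ∈ TT
  ac : ∀ t j, (t, j) ∈ p.core.ac → t ∈ TT ∧ j ∈ YY
  g : ∀ γ, p.core.g γ ≠ [] → γ ∈ GG
  pr : ∀ x ∈ p.prom, x.γ ∈ GG

theorem exists_sup (p : Pre) :
    ∃ (TT : Finset Tk) (YY : Finset Ix) (GG : Finset Om), Sup p TT YY GG := by
  classical
  have h1 : {t : Tk | ∃ n j, s(blk t n, j) ∈ p.core.z}.Finite := by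
    have h2 : {tn : Tk × ℕ | ∃ j, s(blk tn.1 tn.2, j) ∈ p.core.z}.Finite :=
      (finite_ends p.core.hz).preimage (f := fun tn : Tk × ℕ => blk tn.1 tn.2) (by
        rintro ⟨t, n⟩ _ ⟨t', n'⟩ _ h
        obtain ⟨rfl, rfl⟩ := blk_inj h
        rfl)
    refine (h2.image Prod.fst).subset ?_
    rintro t ⟨n, j, h⟩
    exact ⟨(t, n), ⟨j, h⟩, rfl⟩
  have hT : ({t : Tk | ∃ n j, s(blk t n, j) ∈ p.core.z} ∪ Prod.fst '' p.core.ac).Finite :=
    h1.union (p.core.hac.image _)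
  have hY : ({i | p.core.x i ≠ []} ∪ ({i | ∃ k, s(i, k) ∈ p.core.z} ∪
      Prod.snd '' p.core.ac)).Finite :=
    p.core.hx.union ((finite_ends p.core.hz).union (p.core.hac.image _))
  have hG : ({γ | p.core.g γ ≠ []} ∪ Prm.γ '' p.prom).Finite :=
    p.core.hg.union ((prom_finite p).image _)
  refine ⟨hT.toFinset, hY.toFinset, hG.toFinset, ?_⟩
  rw [Set.Finite.coe_toFinset, Set.Finite.coe_toFinset, Set.Finite.coe_toFinset]
  exact ⟨fun i hi => Or.inl hi, fun i j hij => Or.inr (Or.inl ⟨j, hij⟩),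
    fun t n j h => Or.inl ⟨n, j, h⟩,
    fun t j htj => ⟨Or.inr ⟨_, htj, rfl⟩, Or.inr (Or.inr ⟨_, htj, rfl⟩)⟩,
    fun γ hγ => Or.inl hγ, fun x hx => Or.inr ⟨x, hx, rfl⟩⟩

/-- `u` is the union of `p` with `q` -/
theorem agr_le {p q u : Pre} {TT TT' : Set Tk} {YY YY' : Set Ix} {GG GG' : Set Om}
    (hp : Sup p TT YY GG) (hq : Sup q TT' YY' GG')
    (hx : ∀ i ∈ YY, u.core.x i = p.core.x i)
    (hg : ∀ γ ∈ GG, u.core.g γ = p.core.g γ)
    (hz : ∀ i, i ∈ u.core.z ↔ i ∈ p.core.z ∨ i ∈ q.core.z)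
    (hac : p.core.ac ⊆ u.core.ac) (hpr : p.prom ⊆ u.prom)
    (hagr : ∀ t ∈ TT ∩ TT', ∀ j ∈ YY ∩ YY', ∀ n, s(blk t n, j) ∈ q.core.z →
      s(blk t n, j) ∈ p.core.z) : Le u p := by
  rw [le_iff]
  refine ⟨⟨fun i => ?_, fun γ => ?_, fun i hi => (hz i).2 (Or.inl hi), hac,
    fun i j _ hij n h1 h2 => ?_, fun t j htj n h1 h2 => ?_⟩, fun x hxp => ⟨hpr hxp,
      fun n v hn hv => ?_⟩⟩
  · by_cases hi : p.core.x i = []
    · rw [hi]
      exact List.nil_prefix
    · rw [hx i (hp.x i hi)]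
  · by_cases hi : p.core.g γ = []
    · rw [hi]
      exact List.nil_prefix
    · rw [hg γ (hp.g γ hi)]
  · rw [hx i (hp.z i j hij)] at h1
    rw [hx j (hp.z j i (by rw [Sym2.eq_swap]; exact hij))] at h2
    exact ⟨h1, h2⟩
  · exfalso
    rcases (hz _).1 h1 with h3 | h3
    · exact h2 h3
    · obtain ⟨h4, h5⟩ := hp.ac t j htj
      exact h2 (hagr t ⟨h4, hq.zt _ _ _ h3⟩ j ⟨h5, hq.z j _ (by rw [Sym2.eq_swap]; exact h3)⟩ n h3)
  · rw [hg _ (hp.pr x hxp)] at hv
    exact absurd (get_lt hv) (not_lt.2 hn)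

open Classical in
theorem exists_union {p q : Pre} (hpg : Good p) (hqg : Good q)
    {TT TT' : Set Tk} {YY YY' : Set Ix} {GG GG' : Set Om} (hp : Sup p TT YY GG)
    (hq : Sup q TT' YY' GG')
    (h1 : ∀ i ∈ YY, i ∈ YY' → p.core.x i = q.core.x i)
    (h2 : ∀ γ ∈ GG ∩ GG', p.core.g γ = q.core.g γ)
    (h3 : ∀ t ∈ TT ∩ TT', ∀ j ∈ YY ∩ YY', ∀ n, s(blk t n, j) ∈ p.core.z ↔
      s(blk t n, j) ∈ q.core.z) : ∃ u, Good u ∧ Le u p ∧ Le u q := by
  let a : Core :=
    { x := fun i => if i ∈ YY then p.core.x i else q.core.x i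
      g := fun γ => if γ ∈ GG then p.core.g γ else q.core.g γ
      z := p.core.z ∪ q.core.z
      ac := p.core.ac ∪ q.core.ac
      hx := (p.core.hx.union q.core.hx).subset fun i hi => by
        by_contra hcon
        simp only [Set.mem_union, not_or, Set.mem_ofPred_eq, not_not] at hcon
        exact hi (by simp only [hcon.1, hcon.2, ite_self])
      hg := (p.core.hg.union q.core.hg).subset fun i hi => by
        by_contra hcon
        simp only [Set.mem_union, not_or, Set.mem_ofPred_eq, not_not] at hcon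
        exact hi (by simp only [hcon.1, hcon.2, ite_self])
      hz := p.core.hz.union q.core.hz
      hac := p.core.hac.union q.core.hac }
  obtain ⟨u, hu1, hu2⟩ := exists_pre a (p.prom ∪ q.prom) ((prom_finite p).union (prom_finite q))
  have hux : ∀ i, u.core.x i = if i ∈ YY then p.core.x i else q.core.x i := by
    intro i
    rw [hu1]
  have hug : ∀ γ, u.core.g γ = if γ ∈ GG then p.core.g γ else q.core.g γ := by
    intro i
    rw [hu1]
  refine ⟨u, ?_, ?_, ?_⟩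
  · intro y hy
    rw [hu2] at hy
    rcases hy with hy | hy
    · exact hpg y hy
    · exact hqg y hy
  · refine agr_le hp hq (fun i hi => ?_) (fun γ hγ => ?_) (fun i => ?_) ?_ ?_
      fun t ht j hj n h => (h3 t ht j hj n).2 h
    · rw [hux, if_pos hi]
    · rw [hug, if_pos hγ]
    · rw [hu1]
      exact Iff.rfl
    · rw [hu1]
      exact subset_union_left
    · rw [hu2]
      exact subset_union_left
  · refine agr_le hq hp (fun i hi => ?_) (fun γ hγ => ?_) (fun i => ?_) ?_ ?_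
      fun t ht j hj n h => (h3 t ⟨ht.2, ht.1⟩ j ⟨hj.2, hj.1⟩ n).1 h
    · rw [hux]
      by_cases hi' : i ∈ YY
      · rw [if_pos hi', h1 i hi' hi]
      · rw [if_neg hi']
    · rw [hug]
      by_cases hi' : γ ∈ GG
      · rw [if_pos hi', h2 γ ⟨hi', hγ⟩]
      · rw [if_neg hi']
    · rw [hu1]
      exact or_comm
    · rw [hu1]
      exact subset_union_right
    · rw [hu2]
      exact subset_union_right

theorem finite_blk (p : Pre) (t : Tk) (j : Ix) : {n : ℕ | s(blk t n, j) ∈ p.core.z}.Finite := by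
  refine ((finite_ends p.core.hz).preimage (f := fun n : ℕ => blk t n) ?_).subset ?_
  · intro n _ n' _ h
    exact (blk_inj h).2
  · intro n hn
    exact ⟨j, hn⟩

open Classical in
/-- the data of a condition at a pair -/
noncomputable def dat (p : Pre) (u v : Ix ⊕ (Om ⊕ Tk)) : List Bool × List ℕ × Finset ℕ :=
  (match u with
    | Sum.inl j => p.core.x j
    | _ => [],
   match u with
    | Sum.inr (Sum.inl γ) => p.core.g γ
    | _ => [],
   match u, v with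
    | Sum.inr (Sum.inr t), Sum.inl j => (finite_blk p t j).toFinset
    | _, _ => ∅)

theorem dat_x {p q : Pre} {j : Ix} {v : Ix ⊕ (Om ⊕ Tk)}
    (h : dat p (Sum.inl j) v = dat q (Sum.inl j) v) : p.core.x j = q.core.x j :=
  (Prod.mk.inj h).1

theorem dat_g {p q : Pre} {γ : Om} {v : Ix ⊕ (Om ⊕ Tk)}
    (h : dat p (Sum.inr (Sum.inl γ)) v = dat q (Sum.inr (Sum.inl γ)) v) :
    p.core.g γ = q.core.g γ :=
  (Prod.mk.inj (Prod.mk.inj h).2).1

theorem dat_z {p q : Pre} {t : Tk} {j : Ix}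
    (h : dat p (Sum.inr (Sum.inr t)) (Sum.inl j) = dat q (Sum.inr (Sum.inr t)) (Sum.inl j))
    (n : ℕ) : s(blk t n, j) ∈ p.core.z ↔ s(blk t n, j) ∈ q.core.z := by
  have h1 := (Prod.mk.inj (Prod.mk.inj h).2).2
  have h2 := congrArg (fun s : Finset ℕ => n ∈ s) h1
  simp only [Set.Finite.mem_toFinset, eq_iff_iff] at h2
  exact h2

theorem cd_ccc : Pool.Agent.W876.Two.Gen.Ccc Cd := by
  classical
  intro Y f hY
  choose TT YY GG hsup using fun y => exists_sup (f y).1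
  have hY' : ¬ (univ : Set Y).Countable := fun h => hY (countable_univ_iff.1 h)
  obtain ⟨J, R, -, hJ, hR, hroot⟩ := Pool.Agent.Helper126.delta_system
    (fun y => (YY y).disjSum ((GG y).disjSum (TT y))) univ hY'
  let D : Y → (R × R → List Bool × List ℕ × Finset ℕ) :=
    fun y uv => dat (f y).1 uv.1.1 uv.2.1
  obtain ⟨c, hc⟩ := Pool.Agent.Helper126.uncountable_fiber D J hJ
  have hnt : {y ∈ J | D y = c}.Nontrivial := by
    by_contra hcon
    rw [Set.not_nontrivial_iff] at hcon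
    exact hc hcon.finite.countable
  obtain ⟨y, ⟨hyJ, hyc⟩, y', ⟨hyJ', hyc'⟩, hne⟩ := hnt
  have hD : ∀ u ∈ R, ∀ v ∈ R, dat (f y).1 u v = dat (f y').1 u v := by
    intro u hu v hv
    exact congrFun (hyc.trans hyc'.symm) (⟨u, hu⟩, ⟨v, hv⟩)
  have hRj : ∀ j, j ∈ YY y → j ∈ YY y' → (Sum.inl j : Ix ⊕ (Om ⊕ Tk)) ∈ R := fun j h1 h2 =>
    hroot y hyJ y' hyJ' hne _ (by simpa using h1) (by simpa using h2)
  have hRg : ∀ j, j ∈ GG y → j ∈ GG y' → (Sum.inr (Sum.inl j) : Ix ⊕ (Om ⊕ Tk)) ∈ R :=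
    fun j h1 h2 => hroot y hyJ y' hyJ' hne _ (by simpa using h1) (by simpa using h2)
  have hRt : ∀ t, t ∈ TT y → t ∈ TT y' → (Sum.inr (Sum.inr t) : Ix ⊕ (Om ⊕ Tk)) ∈ R :=
    fun j h1 h2 => hroot y hyJ y' hyJ' hne _ (by simpa using h1) (by simpa using h2)
  obtain ⟨u, hu1, hu2, hu3⟩ := exists_union (f y).2 (f y').2 (hsup y) (hsup y') (by
      intro j h1 h2
      have hj := hRj j h1 h2
      exact dat_x (hD _ hj _ hj)) (by
      rintro γ ⟨h1, h2⟩
      have hγ := hRg γ h1 h2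
      exact dat_g (hD _ hγ _ hγ)) (by
      rintro t ⟨h1, h2⟩ j ⟨h3, h4⟩ n
      exact dat_z (hD _ (hRt t h1 h2) _ (hRj j h3 h4)) n)
  exact ⟨y, y', hne, ⟨u, hu1⟩, hu2, hu3⟩

end Pool.Agent.R594.Star
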