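import Mathlib
import Pool.Agent.R594.Star.Lev

/-!
# A combinatorial lemma under the continuum hypothesis
-/

namespace Pool.Agent.R594.Star

open Cardinal Set

/-- σ-ideals of subsets -/
structure SIdeal (S : Type) where
  mem : Set S → Prop
  empty : mem ∅
  mono : ∀ {A B : Set S}, A ⊆ B → mem B → mem A
  iUnion : ∀ (A : ℕ → Set S), (∀ n, mem (A n)) → mem (⋃ n, A n)

namespace SIdeal

variable {S : Type} (I : SIdeal S)

lemma biUnion {ι : Type} {C : Set ι} (hC : C.Countable) {A : ι → Set S}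
    (h : ∀ i ∈ C, I.mem (A i)) : I.mem (⋃ i ∈ C, A i) := by
  rcases C.eq_empty_or_nonempty with rfl | hne
  · simpa using I.empty
  · obtain ⟨f, rfl⟩ := hC.exists_eq_range hne
    refine I.mono ?_ (I.iUnion (fun n => A (f n)) fun n => h _ (mem_range_self n))
    intro x hx
    simp only [mem_iUnion, mem_range, exists_prop, exists_exists_eq_and] at hx ⊢
    exact hx

lemma union {A B : Set S} (hA : I.mem A) (hB : I.mem B) : I.mem (A ∪ B) := by
  refine I.mono ?_ (I.iUnion (fun n => if n = 0 then A else B) ?_)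
  · rintro x (hx | hx)
    · exact mem_iUnion.2 ⟨0, by simpa using hx⟩
    · exact mem_iUnion.2 ⟨1, by simpa using hx⟩
  · intro n
    by_cases hn : n = 0
    · simpa [hn] using hA
    · simpa [hn] using hB

/-- functions to `ω₁` are bounded outside a small set -/
def Bdd : Prop := ∀ f : S → Om, ∃ b : Om, I.mem {s | b ≤ f s}

/-- functions to `K` have countably many values outside a small set -/
def Q (K : Type) : Prop := ∀ f : S → K, ∃ C : Set K, C.Countable ∧ I.mem {s | f s ∉ C}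

variable {I}

lemma Q.of_injective {K K' : Type} (h : I.Q K') {e : K → K'} (he : Function.Injective e) :
    I.Q K := by
  intro f
  obtain ⟨C, hC, hm⟩ := h (e ∘ f)
  exact ⟨e ⁻¹' C, hC.preimage he, hm⟩

lemma Q.of_le {K K' : Type} (h : I.Q K') (hle : #K ≤ #K') : I.Q K := by
  obtain ⟨e⟩ := hle
  exact h.of_injective e.injective

lemma Q.prod {K K' : Type} (h : I.Q K) (h' : I.Q K') : I.Q (K × K') := by
  intro f
  obtain ⟨C, hC, hm⟩ := h (fun s => (f s).1)
  obtain ⟨C', hC', hm'⟩ := h' (fun s => (f s).2)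
  refine ⟨C ×ˢ C', hC.prod hC', I.mono ?_ (I.union hm hm')⟩
  intro s hs
  by_contra hcon
  simp only [mem_union, mem_ofPred_eq, not_or, not_not] at hcon
  exact hs (mk_mem_prod hcon.1 hcon.2)

lemma Q.of_countable (K : Type) [Countable K] : I.Q K := by
  intro f
  refine ⟨univ, countable_univ, I.mono ?_ I.empty⟩
  intro s hs
  exact hs (mem_univ _)

lemma countable_Iio (b : Om) : (Iio b).Countable := by
  rw [← le_aleph0_iff_set_countable, ← lt_aleph_one_iff]
  have h := mk_Iio_lt b (by simp)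
  rwa [mk_ord_toType] at h

lemma mk_Om : #Om = ℵ₁ := by
  rw [mk_ord_toType]

lemma Bdd.Q_Om (h : I.Bdd) : I.Q Om := by
  intro f
  obtain ⟨b, hb⟩ := h f
  refine ⟨Iio b, countable_Iio b, I.mono ?_ hb⟩
  intro s (hs : ¬ f s < b)
  exact not_lt.1 hs

lemma Bdd.Q_of_le (h : I.Bdd) {K : Type} (hK : #K ≤ ℵ₁) : I.Q K :=
  h.Q_Om.of_le (by rwa [mk_Om])

/-- only countably many fibres are large -/
lemma Bdd.countable_fibres (h : I.Bdd) {K : Type} (f : S → K) :
    {y | ¬ I.mem (f ⁻¹' {y})}.Countable := by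
  classical
  by_contra hcon
  have h1 : ℵ₁ ≤ #{y | ¬ I.mem (f ⁻¹' {y})} := by
    by_contra hlt
    exact hcon (le_aleph0_iff_set_countable.1 (lt_aleph_one_iff.1 (not_le.1 hlt)))
  rw [← mk_Om] at h1
  obtain ⟨e⟩ := h1
  have hne : Nonempty Om := by
    rw [← mk_ne_zero_iff, mk_Om]
    exact (aleph_pos 1).ne'
  let g : S → Om := fun s => if hs : ∃ j, (e j : K) = f s then hs.choose else Classical.arbitrary _
  obtain ⟨b, hb⟩ := h g
  refine (e b).2 (I.mono ?_ hb)
  intro s hs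
  have hs' : f s = e b := hs
  have hex : ∃ j, (e j : K) = f s := ⟨b, hs'.symm⟩
  have hg : g s = hex.choose := dif_pos hex
  have h2 : hex.choose = b := e.injective (Subtype.ext (by rw [hex.choose_spec, hs']))
  show b ≤ g s
  rw [hg, h2]

/-- the main step, case (a) -/
lemma Bdd.case_a (h : I.Bdd) (hCH : (𝔠 : Cardinal.{0}) = ℵ₁) {κ : Type} [LinearOrder κ]
    (f : S → κ → Bool) (α : WithTop κ) (A : Set S)
    (hA : ∀ s ∈ A, I.mem {s' | ∀ ξ : κ, (ξ : WithTop κ) < α → f s' ξ = f s ξ})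
    (hA' : ∀ s ∈ A, ∀ β : κ, (β : WithTop κ) < α → ¬ I.mem {s' | ∀ ξ : κ, ξ < β → f s' ξ = f s ξ})
    (D : Set κ) (hD : D.Countable) (hDα : ∀ β ∈ D, (β : WithTop κ) < α)
    (hcof : ∀ ξ : κ, (ξ : WithTop κ) < α → ∃ β ∈ D, ξ ≤ β) : I.mem A := by
  classical
  let g : κ → S → κ → Bool := fun β s ξ => if ξ < β then f s ξ else false
  have hg : ∀ β s s', g β s' = g β s ↔ ∀ ξ, ξ < β → f s' ξ = f s ξ := by
    intro β s s'
    constructor
    · intro he ξ hξ
      have := congrFun he ξ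
      simpa [g, hξ] using this
    · intro he
      funext ξ
      by_cases hξ : ξ < β
      · simp [g, hξ, he ξ hξ]
      · simp [g, hξ]
  have hV : ∀ β : κ, {y | ¬ I.mem (g β ⁻¹' {y})}.Countable := fun β => h.countable_fibres (g β)
  have hcode : ∀ β : κ, ∃ c : (κ → Bool) → ℕ, InjOn c {y | ¬ I.mem (g β ⁻¹' {y})} := fun β =>
    countable_iff_exists_injOn.1 (hV β)
  choose c hc using hcode
  have : Countable D := hD.to_subtype
  have hQ : I.Q (D → ℕ × Bool) := by
    refine h.Q_of_le ?_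
    rw [← hCH, ← power_def]
    have h1 : #(ℕ × Bool) = ℵ₀ := mk_eq_aleph0 _
    rw [h1]
    calc ℵ₀ ^ #D ≤ ℵ₀ ^ ℵ₀ := power_le_power_left aleph0_ne_zero (mk_le_aleph0 (α := D))
      _ = 𝔠 := aleph0_power_aleph0
  obtain ⟨C', hC', hm⟩ := hQ fun s β => (c β (g β s), f s β)
  refine I.mono ?_ (I.union hm (I.biUnion hC' (A := fun y =>
    {s | s ∈ A ∧ (fun β : D => (c β (g β s), f s β)) = y}) ?_))
  · intro s hs
    by_cases hs' : (fun β : D => (c β (g β s), f s β)) ∈ C'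
    · right
      simp only [mem_iUnion]
      exact ⟨_, hs', hs, rfl⟩
    · left; exact hs'
  · intro y _
    by_cases hex : ∃ s0, s0 ∈ A ∧ (fun β : D => (c β (g β s0), f s0 β)) = y
    · obtain ⟨s0, hs0, hy⟩ := hex
      refine I.mono ?_ (hA s0 hs0)
      rintro s ⟨hs, hsy⟩ ξ hξ
      obtain ⟨β, hβ, hle⟩ := hcof ξ hξ
      have h1 := congrFun (hsy.trans hy.symm) ⟨β, hβ⟩
      simp only [Prod.mk.injEq] at h1
      rcases hle.lt_or_eq with hlt | rfl
      · have hmem : ∀ t ∈ A, g β t ∈ {y | ¬ I.mem (g β ⁻¹' {y})} := by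
          intro t ht
          have h3 : g β ⁻¹' {g β t} = {s' | ∀ ξ : κ, ξ < β → f s' ξ = f t ξ} := by
            ext s'
            exact hg β t s'
          show ¬ I.mem _
          rw [h3]
          exact hA' t ht β (hDα β hβ)
        have h2 := hc β (hmem s hs) (hmem s0 hs0) h1.1
        exact (hg β s0 s).1 h2 ξ hlt
      · exact h1.2
    · refine I.mono ?_ I.empty
      rintro s ⟨hs, hsy⟩
      exact hex ⟨s, hs, hsy⟩

/-- the main step -/
lemma Bdd.Q_fun (h : I.Bdd) (hCH : (𝔠 : Cardinal.{0}) = ℵ₁) {κ : Type} [LinearOrder κ]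
    [WellFoundedLT κ] (hκ : I.Q (WithTop κ)) : I.Q (κ → Bool) := by
  classical
  intro f
  refine ⟨{y | ¬ I.mem (f ⁻¹' {y})}, h.countable_fibres f, ?_⟩
  have hset : {s | f s ∉ {y | ¬ I.mem (f ⁻¹' {y})}} = {s | I.mem (f ⁻¹' {f s})} := by
    ext s
    simp
  rw [hset]
  let E : S → WithTop κ → Set S := fun s α => {s' | ∀ ξ : κ, (ξ : WithTop κ) < α → f s' ξ = f s ξ}
  have hE : ∀ s, E s ⊤ = f ⁻¹' {f s} := by
    intro s
    ext s'
    constructor
    · intro hs'
      exact funext fun ξ => hs' ξ (WithTop.coe_lt_top ξ)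
    · intro hs' ξ _
      exact congrFun hs' ξ
  have hEne : ∀ s ∈ {s | I.mem (f ⁻¹' {f s})}, {α | I.mem (E s α)}.Nonempty := fun s hs =>
    ⟨⊤, by show I.mem _; rw [hE]; exact hs⟩
  let m : S → WithTop κ := fun s =>
    if hs : s ∈ {s | I.mem (f ⁻¹' {f s})} then
      (wellFounded_lt (α := WithTop κ)).min {α | I.mem (E s α)} (hEne s hs)
    else ⊤
  have hm : ∀ s ∈ {s | I.mem (f ⁻¹' {f s})}, I.mem (E s (m s)) ∧ ∀ β < m s, ¬ I.mem (E s β) := by
    intro s hs
    have he : m s = (wellFounded_lt (α := WithTop κ)).min {α | I.mem (E s α)} (hEne s hs) :=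
      dif_pos hs
    rw [he]
    have h1 := WellFounded.min_mem (wellFounded_lt (α := WithTop κ)) {α | I.mem (E s α)}
      (hEne s hs)
    refine ⟨h1, fun β hβ hcon => ?_⟩
    exact WellFounded.not_lt_min (wellFounded_lt (α := WithTop κ)) (s := {α | I.mem (E s α)}) hcon hβ
  obtain ⟨C, hC, hCm⟩ := hκ m
  refine I.mono ?_ (I.union hCm (I.biUnion hC (A := fun α =>
    {s | s ∈ {s | I.mem (f ⁻¹' {f s})} ∧ m s = α}) ?_))
  · intro s hs
    by_cases hs' : m s ∈ C
    · right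
      simp only [mem_iUnion]
      exact ⟨_, hs', hs, rfl⟩
    · left; exact hs'
  intro α _
  by_cases hcof : ∃ D : Set κ, D.Countable ∧ (∀ β ∈ D, (β : WithTop κ) < α) ∧
      ∀ ξ : κ, (ξ : WithTop κ) < α → ∃ β ∈ D, ξ ≤ β
  · obtain ⟨D, hD, hDα, hc⟩ := hcof
    refine h.case_a hCH f α _ ?_ ?_ D hD hDα hc
    · rintro s ⟨hs, rfl⟩
      exact (hm s hs).1
    · rintro s ⟨hs, rfl⟩ β hβ hcon
      refine (hm s hs).2 β hβ (I.mono ?_ hcon)
      intro s' hs' ξ hξ
      exact hs' ξ (WithTop.coe_lt_coe.2 hξ)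
  · by_cases hex : ∃ s, s ∈ {s | I.mem (f ⁻¹' {f s})} ∧ m s = α
    swap
    · refine I.mono ?_ I.empty
      intro s hs
      exact hex ⟨s, hs⟩
    obtain ⟨s, hs, rfl⟩ := hex
    exfalso
    let m' : S → WithTop κ := fun x =>
      if hx : {ξ : κ | f x ξ ≠ f s ξ}.Nonempty then
        ((wellFounded_lt (α := κ)).min {ξ : κ | f x ξ ≠ f s ξ} hx : WithTop κ) else ⊤
    obtain ⟨C', hC', hCm'⟩ := hκ m'
    have hD : {ξ : κ | (ξ : WithTop κ) ∈ C' ∧ (ξ : WithTop κ) < m s}.Countable :=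
      (hC'.preimage WithTop.coe_injective).mono fun ξ hξ => hξ.1
    obtain ⟨ξ0, hξ0, hub⟩ : ∃ ξ : κ, (ξ : WithTop κ) < m s ∧
        ∀ β ∈ {ξ : κ | (ξ : WithTop κ) ∈ C' ∧ (ξ : WithTop κ) < m s}, β < ξ := by
      by_contra hcon
      push Not at hcon
      exact hcof ⟨_, hD, fun β hβ => hβ.2, hcon⟩
    refine (hm s hs).2 ξ0 hξ0 (I.mono ?_ (I.union (hm s hs).1 hCm'))
    intro x hx
    by_cases hxE : x ∈ E s (m s)
    · left; exact hxE
    right
    intro hxC
    have hne : {ξ : κ | f x ξ ≠ f s ξ}.Nonempty := by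
      by_contra hcon
      rw [not_nonempty_iff_eq_empty] at hcon
      apply hxE
      intro ξ _
      by_contra hne
      have : ξ ∈ {ξ : κ | f x ξ ≠ f s ξ} := hne
      rw [hcon] at this
      exact this
    have hm' : m' x = ((wellFounded_lt (α := κ)).min {ξ : κ | f x ξ ≠ f s ξ} hne : WithTop κ) :=
      dif_pos hne
    have hmin := WellFounded.min_mem (wellFounded_lt (α := κ)) {ξ : κ | f x ξ ≠ f s ξ} hne
    set η := (wellFounded_lt (α := κ)).min {ξ : κ | f x ξ ≠ f s ξ} hne with hη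
    have hlt : (η : WithTop κ) < m s := by
      by_contra hge
      apply hxE
      intro ξ hξ
      by_contra hne'
      have h1 : (ξ : WithTop κ) < η := lt_of_lt_of_le hξ (not_lt.1 hge)
      exact WellFounded.not_lt_min (wellFounded_lt (α := κ)) (s := {ξ : κ | f x ξ ≠ f s ξ}) hne' (WithTop.coe_lt_coe.1 h1)
    have h2 := hub η ⟨by rw [← hm']; exact hxC, hlt⟩
    exact hmin (hx η (WithTop.coe_lt_coe.2 h2))

lemma Bdd.Q_fun' (h : I.Bdd) (hCH : (𝔠 : Cardinal.{0}) = ℵ₁) {κ : Type} [Infinite κ]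
    (hκ : I.Q κ) : I.Q (κ → Bool) := by
  classical
  let κ' : Type := (#κ).ord.ToType
  have hmk : #κ' = #κ := by rw [mk_ord_toType]
  obtain ⟨e⟩ := Cardinal.eq.1 hmk
  have hQ : I.Q (WithTop κ') := by
    refine hκ.of_le ?_
    have h1 : #(WithTop κ') = #κ' + 1 := mk_option
    rw [h1, hmk, add_one_eq (aleph0_le_mk κ)]
  refine (h.Q_fun hCH hQ).of_injective (e := fun f : κ → Bool => fun x : κ' => f (e x)) ?_
  intro f g hfg
  funext x
  have := congrFun hfg (e.symm x)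
  simpa using this

lemma Bdd.Q_pow (h : I.Bdd) (hCH : (𝔠 : Cardinal.{0}) = ℵ₁) {κ : Type} [Nonempty κ]
    (hκ : I.Q κ) : I.Q (κ → Om) := by
  classical
  have hinf : Infinite Om := by
    rw [infinite_iff, mk_Om]
    exact aleph0_le_aleph 1
  have := h.Q_fun' hCH (hκ.prod h.Q_Om)
  refine this.of_injective (e := fun w : κ → Om => fun x : κ × Om => decide (w x.1 = x.2)) ?_
  intro f g hfg
  funext x
  have := congrFun hfg (x, f x)
  have h2 : g x = f x := by simpa using this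
  exact h2.symm

end SIdeal

instance : ∀ k, Nonempty (Lv k)
  | 0 => by
    show Nonempty Om
    rw [← mk_ne_zero_iff, SIdeal.mk_Om]
    exact (aleph_pos 1).ne'
  | k + 1 => by
    have hne : Nonempty Om := by
      rw [← mk_ne_zero_iff, SIdeal.mk_Om]
      exact (aleph_pos 1).ne'
    show Nonempty ((Lv k → Om) × ℕ)
    infer_instance

lemma Q_Lv {S : Type} {I : SIdeal S} (h : I.Bdd) (hCH : (𝔠 : Cardinal.{0}) = ℵ₁) :
    ∀ k, I.Q (Lv k)
  | 0 => h.Q_Om
  | k + 1 => (h.Q_pow hCH (Q_Lv h hCH k)).prod (SIdeal.Q.of_countable ℕ)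

theorem exists_tasks (hCH : (𝔠 : Cardinal.{0}) = ℵ₁) (k : ℕ) (σ : Lv k → Om)
    (δ : (Lv k → Om) → Om) :
    ∃ W : Set (Lv k → Om), W.Countable ∧ (∀ w ∈ W, ∀ i, σ i ≤ w i) ∧
      {i | ∀ w ∈ W, w i < δ w}.Countable := by
  let I : SIdeal (Lv k) :=
    { mem := fun Y => ∃ W : Set (Lv k → Om), W.Countable ∧ (∀ w ∈ W, ∀ i, σ i ≤ w i) ∧
        (Y ∩ {i | ∀ w ∈ W, w i < δ w}).Countable
      empty := ⟨∅, countable_empty, fun w hw => absurd hw (notMem_empty w), by
        rw [empty_inter]; exact countable_empty⟩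
      mono := by
        rintro A B hAB ⟨W, h1, h2, h3⟩
        exact ⟨W, h1, h2, h3.mono (inter_subset_inter_left _ hAB)⟩
      iUnion := by
        intro A hA
        choose W h1 h2 h3 using hA
        refine ⟨⋃ n, W n, countable_iUnion h1, ?_, (countable_iUnion h3).mono ?_⟩
        · intro w hw
          obtain ⟨n, hn⟩ := mem_iUnion.1 hw
          exact h2 n w hn
        · rintro i ⟨hi, hi'⟩
          obtain ⟨n, hn⟩ := mem_iUnion.1 hi
          exact mem_iUnion.2 ⟨n, hn, fun w hw => hi' w (mem_iUnion.2 ⟨n, hw⟩)⟩ }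
  have hB : I.Bdd := by
    intro f
    refine ⟨δ fun i => max (f i) (σ i), {fun i => max (f i) (σ i)}, countable_singleton _, ?_, ?_⟩
    · intro w hw i
      rw [mem_singleton_iff.1 hw]
      exact le_max_right _ _
    · refine countable_empty.mono ?_
      rintro i ⟨hi, hi'⟩
      have h1 := hi' _ (mem_singleton _)
      exact absurd (lt_of_le_of_lt (le_max_left _ _) h1) (not_lt.2 hi)
  obtain ⟨C, hC, W, h1, h2, h3⟩ := Q_Lv hB hCH k id
  refine ⟨W, h1, h2, (h3.union hC).mono ?_⟩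
  intro i hi
  by_cases hiC : i ∈ C
  · right; exact hiC
  · left; exact ⟨hiC, hi⟩

end Pool.Agent.R594.Star
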