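import Mathlib
import Pool.Agent.Helper126.Sus.Forc
import Pool.Agent.W876.Two.Gen

/-!
# Star covering properties of Psi-spaces in the forcing language

`K` is a set of the ground model, `A` names a family of subsets of `ℕ` indexed by `K`. The points
of the Psi-space of the family are the members of `ℕ ⊕ K`: the point `Sum.inl n` is the natural
number `n`, the point `Sum.inr j` is the member `A j` of the family.
-/

namespace Pool.Agent.R594.Star

open Cardinal Pool.Agent.Helper126.Sus.Forc

open Pool.Agent.W876.Two.Gen (IsFun)

variable {P : Type} [Preorder P] {K ι : Type}

/-- The subset `X` of `ℕ` is infinite. -/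
def IsInfinite (X : ℕ → Set P) : Set P :=
  fall fun m => fex fun n => fand (fground (m ≤ n)) (meets (X n))

/-- The subsets `X` and `Y` of `ℕ` have a finite intersection. -/
def FiniteMeet (X Y : ℕ → Set P) : Set P :=
  fex fun m => fall fun n => fimp (fand (meets (X n)) (meets (Y n))) (fground (n < m))

/-- The sets `A j` are infinite and `A i`, `A j` are almost disjoint whenever `i ≠ j`: they form an
almost disjoint family of cardinality `#K`. -/
def IsAD (A : K → ℕ → Set P) : Set P :=
  fand (fall fun j => IsInfinite (A j))
    (fall fun i => fall fun j => fall fun _ : i ≠ j => FiniteMeet (A i) (A j))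

/-- The subset `V` of the Psi-space is open: if it contains the point `A j`, then it contains all
but finitely many elements of the set `A j`. -/
def IsOpenPsi (A : K → ℕ → Set P) (V : ℕ ⊕ K → Set P) : Set P :=
  fall fun j => fimp (meets (V (Sum.inr j))) (fex fun m => fall fun n =>
    fimp (fand (fground (m ≤ n)) (meets (A j n))) (meets (V (Sum.inl n))))

/-- The sets `U i` form an open cover of the Psi-space. -/
def IsOpenCover (A : K → ℕ → Set P) (U : ι → ℕ ⊕ K → Set P) : Set P :=
  fand (fall fun i => IsOpenPsi A (U i)) (fall fun x => fex fun i => meets (U i x))

/-- `F` is a finite subset of the ground model set `ι`: it is contained in a finite set of the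
ground model. -/
def IsFiniteSub (F : ι → Set P) : Set P :=
  fex fun S : Finset ι => fall fun i => fimp (meets (F i)) (fground (i ∈ S))

/-- The point `x` is in the star of the union of the sets `U i`, `i ∈ F`, with respect to the cover
`U`: there are `i` with `x ∈ U i` and `i' ∈ F` such that `U i` meets `U i'`. -/
def InStar (U : ι → ℕ ⊕ K → Set P) (F : ι → Set P) (x : ℕ ⊕ K) : Set P :=
  fex fun i => fand (meets (U i x)) (fex fun i' => fand (meets (F i'))
    (fex fun y => fand (meets (U i y)) (meets (U i' y))))

/-- The Psi-space of `A` is star-Hurewicz: for every sequence `U n` of open covers there are finite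
subfamilies, given by finite sets `F n` of indices, such that every point is in the star of the
union of the `n`-th subfamily for all but finitely many `n`. -/
def StarHurewicz (A : K → ℕ → Set P) : Set P :=
  fall fun ι : Type => fall fun U : ℕ → ι → ℕ ⊕ K → Set P =>
    fimp (fall fun n => IsOpenCover A (U n))
      (fex fun F : ℕ → ι → Set P => fand (fall fun n => IsFiniteSub (F n))
        (fall fun x => fex fun m => fall fun n => fall fun _ : m ≤ n => InStar (U n) (F n) x))

/-- The Psi-space of `A` is star-Menger: for every sequence `U n` of open covers there are finite
subfamilies, given by finite sets `F n` of indices, such that every point is for some `n` in the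
star of the union of the `n`-th subfamily. -/
def StarMenger (A : K → ℕ → Set P) : Set P :=
  fall fun ι : Type => fall fun U : ℕ → ι → ℕ ⊕ K → Set P =>
    fimp (fall fun n => IsOpenCover A (U n))
      (fex fun F : ℕ → ι → Set P => fand (fall fun n => IsFiniteSub (F n))
        (fall fun x => fex fun n => InStar (U n) (F n) x))

/-- The function `f` from `ℕ` to `ℕ` is eventually below the function `g`. -/
def EventuallyLE (f g : ℕ → ℕ → Set P) : Set P :=
  fex fun m => fall fun n => fall fun a => fall fun b =>
    fimp (fand (fground (m ≤ n)) (fand (meets (f n a)) (meets (g n b)))) (fground (a ≤ b))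

/-- The functions `g β` form a dominating family: every function `f` from `ℕ` to `ℕ` is eventually
below one of them. -/
def IsDominating (g : K → ℕ → ℕ → Set P) : Set P :=
  fand (fall fun β => IsFun (g β))
    (fall fun f : ℕ → ℕ → Set P => fimp (IsFun f) (fex fun β => EventuallyLE f (g β)))

/-- The functions `g β` form an unbounded family: there is no function `f` from `ℕ` to `ℕ` such
that all of them are eventually below `f`. -/
def IsUnbounded (g : K → ℕ → ℕ → Set P) : Set P :=
  fand (fall fun β => IsFun (g β))
    (fall fun f : ℕ → ℕ → Set P => fimp (IsFun f) (fnot (fall fun β => EventuallyLE (g β) f)))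

end Pool.Agent.R594.Star
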