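import Mathlib
import Pool.Agent.R594.Star.Ccc
import Pool.Agent.R594.Star.Lang

/-!
# The family is star-Hurewicz and the dominating number is `ℵ₁`
-/

namespace Pool.Agent.R594.Star

open Cardinal Set Pool.Agent.Helper126.Sus.Forc

open Pool.Agent.W876.Two.Gen

/-- a condition -/
def mkCd (r : Pre) (h : Good r) : Cd := ⟨r, h⟩

@[simp] theorem mkCd_val (r : Pre) (h : Good r) : (mkCd r h).1 = r := rfl

/-- the names of the members of the family -/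
def AN (j : Ix) (k : ℕ) : Set Cd := {p | On (p.1.core.x j) k}

/-- the names of the dominating functions -/
def GN (β : Om) (n v : ℕ) : Set Cd := {p | (p.1.core.g β)[n]? = some v}

theorem an_down {j : Ix} {k : ℕ} : ∀ p ∈ AN j k, ∀ q ≤ p, q ∈ AN j k := fun _ hp _ hq =>
  on_mono ((le_iff.1 (cd_le.1 hq)).1.x _) hp

theorem gn_down {β : Om} {n k : ℕ} : ∀ p ∈ GN β n k, ∀ q ≤ p, q ∈ GN β n k := fun _ hp _ hq =>
  get_mono ((le_iff.1 (cd_le.1 hq)).1.g _) hp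

theorem isInfinite_an (j : Ix) (p : Cd) : p ∈ IsInfinite (AN j) := by
  intro m
  rw [mem_fex]
  intro q _
  obtain ⟨r, k, h1, h2, h3, h4⟩ := exists_on q.2 j m
  exact ⟨mkCd r h1, h2, k, h3, meets_of_mem h4⟩

theorem isAD_an (p : Cd) : p ∈ IsAD AN := by
  refine ⟨fun j => isInfinite_an j p, fun i j hij => ?_⟩
  unfold FiniteMeet
  rw [mem_fex]
  intro q _
  obtain ⟨r, h1, h2, h3⟩ := exists_z q.2 hij
  refine ⟨mkCd r h1, h2, (r.core.x i).length, fun n => ?_⟩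
  rw [mem_fimp]
  rintro s hs ⟨h4, h5⟩
  obtain ⟨s1, hs1, h6⟩ := exists_of_meets an_down h4
  obtain ⟨s2, hs2, h7⟩ := exists_of_meets an_down (meets_down h5 hs1)
  have h8 : Le s2.1 r := le_trans' (cd_le.1 (hs2.trans hs1)) (cd_le.1 hs)
  have h9 := (le_iff.1 h8).1.fr i j hij h3 n (an_down _ h6 _ hs2) h7
  exact ⟨s, le_rfl, on_lt h9.1⟩

theorem isFun_gn (β : Om) (p : Cd) : p ∈ IsFun (GN β) := by
  refine ⟨fun n => ?_, fun n a b => ?_⟩
  · rw [mem_fex]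
    intro q _
    obtain ⟨r, v, h1, h2, h3⟩ := exists_val β n q.2
    exact ⟨mkCd r h1, h2, v, meets_of_mem h3⟩
  · rw [mem_fimp]
    rintro s hs ⟨h4, h5⟩
    obtain ⟨s1, hs1, h6⟩ := exists_of_meets gn_down h4
    obtain ⟨s2, hs2, h7⟩ := exists_of_meets gn_down (meets_down h5 hs1)
    have h8 := gn_down _ h6 _ hs2
    refine ⟨s, le_rfl, ?_⟩
    change (s2.1.core.g β)[n]? = some a at h8
    change (s2.1.core.g β)[n]? = some b at h7
    rw [h7] at h8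
    exact (Option.some.inj h8).symm

/-- the domination lemma -/
theorem exists_dom (φ : ℕ → ℕ → Set Cd) (hdown : ∀ n m, ∀ p ∈ φ n m, ∀ q ≤ p, q ∈ φ n m)
    (hmono : ∀ n m m', m ≤ m' → φ n m ⊆ φ n m') {p0 : Cd}
    (h : ∀ n, ∀ q ≤ p0, ∃ r ≤ q, ∃ m, r ∈ φ n m) :
    ∃ β : Om, ∀ β', β ≤ β' → ∀ q ≤ p0, ∃ r ≤ q, ∀ n v, ∀ s ≤ r, (r.1.core.g β').length ≤ n →
      s ∈ GN β' n v → s ∈ φ n v := by
  classical
  let D : ℕ → Set Cd := fun n => {q | (q ≤ p0 ∧ ∃ m, q ∈ φ n m) ∨ ¬ ∃ s, s ≤ q ∧ s ≤ p0}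
  have hD : ∀ n (q : Cd), ∃ r ≤ q, r ∈ D n := by
    intro n q
    by_cases hq : ∃ s, s ≤ q ∧ s ≤ p0
    · obtain ⟨s, hs1, hs2⟩ := hq
      obtain ⟨r, hr, m, hm⟩ := h n s hs2
      exact ⟨r, hr.trans hs1, Or.inl ⟨hr.trans hs2, m, hm⟩⟩
    · exact ⟨q, le_rfl, Or.inr hq⟩
  choose A hA1 hA2 hA3 using fun n => exists_antichain cd_ccc (D n)
  have hne : ∀ n, (A n).Nonempty := by
    intro n
    obtain ⟨r, -, hr⟩ := hD n p0
    obtain ⟨a, ha, -⟩ := hA3 n r hr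
    exact ⟨a, ha⟩
  choose c hc using fun n => (hA2 n).exists_eq_range (hne n)
  have hcD : ∀ n l, c n l ∈ D n := fun n l => hA1 n (by
    rw [hc n]
    exact ⟨l, rfl⟩)
  let m : ℕ → ℕ → ℕ := fun n l => if h : ∃ m, c n l ∈ φ n m then h.choose else 0
  have hm : ∀ n l, c n l ≤ p0 → c n l ∈ φ n (m n l) := by
    intro n l hle
    have h1 : ∃ m, c n l ∈ φ n m := by
      rcases hcD n l with h1 | h1
      · exact h1.2
      · exact absurd ⟨_, le_rfl, hle⟩ h1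
    change c n l ∈ φ n (if h : ∃ m, c n l ∈ φ n m then h.choose else 0)
    rw [dif_pos h1]
    exact h1.choose_spec
  obtain ⟨β, hβ⟩ := exists_tot (fun n l => (c n l).1) (fun n l => (c n l).2) (by
    intro n p hp
    obtain ⟨r, hr, hrD⟩ := hD n (mkCd p hp)
    obtain ⟨a, ha, s, hs1, hs2⟩ := hA3 n r hrD
    rw [hc n] at ha
    obtain ⟨l, rfl⟩ := ha
    exact ⟨l, s.1, s.2, hs2.trans hr, hs1⟩)
  refine ⟨β, fun β' hββ' q hq => ?_⟩
  obtain ⟨r, h1, h2, h3⟩ := exists_promise q.2 (x := ⟨β', fun n l => (c n l).1, m⟩) (hβ.mono hββ')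
  refine ⟨mkCd r h1, h2, fun n v s hs hn hv => ?_⟩
  obtain ⟨l, h4, h5⟩ := ((le_iff.1 (cd_le.1 hs)).2 _ h3).2 n v hn hv
  have h6 : s ≤ c n l := h4
  have h7 : s ≤ p0 := hs.trans (show mkCd r h1 ≤ p0 from le_trans' h2 (cd_le.1 hq))
  apply hmono n _ _ h5
  rcases hcD n l with h8 | h8
  · exact hdown n _ _ (hm n l h8.1) _ h6
  · exact absurd ⟨s, h6, h7⟩ h8

theorem isDominating_gn (p : Cd) : p ∈ IsDominating GN := by
  refine ⟨fun β => isFun_gn β p, fun f => ?_⟩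
  rw [mem_fimp]
  intro q _ hf
  refine ⟨q, le_rfl, ?_⟩
  obtain ⟨β, hβ⟩ := exists_dom (fun n m => {s | ∀ u ≤ s, ∀ a, u ∈ meets (f n a) → a ≤ m})
    (fun n m s hs s' hs' u hu a ha => hs u (hu.trans hs') a ha)
    (fun n m m' h s hs u hu a ha => (hs u hu a ha).trans h) (p0 := q) (by
      intro n s hs
      obtain ⟨r, hr, a, ha⟩ := mem_fex.1 (hf.1 n) s hs
      refine ⟨r, hr, a, fun u hu b hb => ?_⟩
      obtain ⟨_, _, h1⟩ := mem_fimp.1 (hf.2 n a b) u (hu.trans (hr.trans hs))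
        ⟨meets_down ha hu, hb⟩
      exact (show a = b from h1).ge)
  rw [mem_fex]
  intro q' hq'
  obtain ⟨r, hr, h1⟩ := hβ β le_rfl q' hq'
  refine ⟨r, hr, β, ?_⟩
  unfold EventuallyLE
  rw [mem_fex]
  intro r' hr'
  refine ⟨r', le_rfl, (r.1.core.g β).length, fun n a b => ?_⟩
  rw [mem_fimp]
  rintro s hs ⟨h2, h3, h4⟩
  obtain ⟨s1, hs1, h5⟩ := exists_of_meets gn_down h4
  refine ⟨s, le_rfl, ?_⟩
  exact h1 n b s1 (hs1.trans (hs.trans hr')) h2 h5 s1 le_rfl a (meets_down h3 hs1)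

/-- a name of a choice -/
theorem exists_choice {P : Type} [Preorder P] {ι : Type} (ψ : ι → Set P)
    (hdown : ∀ a, ∀ s ∈ ψ a, ∀ u ≤ s, u ∈ ψ a) {p0 : P}
    (h : ∀ q ≤ p0, ∃ r ≤ q, ∃ a, r ∈ ψ a) :
    ∃ N : ι → Set P, (∀ a, ∀ s ∈ N a, ∀ u ≤ s, u ∈ N a) ∧ (∀ a, N a ⊆ ψ a) ∧
      (∀ s a b, s ∈ N a → s ∈ N b → a = b) ∧ ∀ q ≤ p0, ∃ r ≤ q, ∃ a, r ∈ N a := by
  classical
  let D : Set P := {r | ∃ a, r ∈ ψ a}
  obtain ⟨A, hA⟩ := zorn_subset {A : Set P | A ⊆ D ∧ ∀ a ∈ A, ∀ b ∈ A,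
      (∃ s, s ≤ a ∧ s ≤ b) → a = b}
    (by
      intro c hc hchain
      refine ⟨⋃₀ c, ⟨Set.sUnion_subset fun s hs => (hc hs).1, ?_⟩,
        fun s hs => Set.subset_sUnion_of_mem hs⟩
      rintro a ⟨s, hs, ha⟩ b ⟨t, ht, hb⟩ hab
      rcases hchain.total hs ht with h | h
      · exact (hc ht).2 a (h ha) b hb hab
      · exact (hc hs).2 a ha b (h hb) hab)
  have hmax : ∀ p ∈ D, ∃ a ∈ A, ∃ s, s ≤ a ∧ s ≤ p := by
    intro p hp
    by_contra hcon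
    push Not at hcon
    have hpA : p ∉ A := fun hpA => hcon p hpA p le_rfl le_rfl
    have hmem : insert p A ∈ {A : Set P | A ⊆ D ∧ ∀ a ∈ A, ∀ b ∈ A,
        (∃ s, s ≤ a ∧ s ≤ b) → a = b} := by
      refine ⟨Set.insert_subset hp hA.prop.1, ?_⟩
      rintro a (rfl | ha) b (rfl | hb) ⟨s, h1, h2⟩
      · rfl
      · exact absurd h1 (hcon b hb s h2)
      · exact absurd h2 (hcon a ha s h1)
      · exact hA.prop.2 a ha b hb ⟨s, h1, h2⟩
    exact hpA (hA.le_of_ge hmem (Set.subset_insert p A) (Set.mem_insert p A))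
  have hch : ∀ r : A, ∃ a, r.1 ∈ ψ a := fun r => hA.prop.1 r.2
  choose e he using hch
  refine ⟨fun a => {s | ∃ r : A, e r = a ∧ s ≤ r.1}, ?_, ?_, ?_, ?_⟩
  · rintro a s ⟨r, h1, h2⟩ u hu
    exact ⟨r, h1, hu.trans h2⟩
  · rintro a s ⟨r, rfl, h2⟩
    exact hdown _ _ (he r) s h2
  · rintro s a b ⟨r, rfl, h2⟩ ⟨r', rfl, h4⟩
    rw [Subtype.ext (hA.prop.2 r.1 r.2 r'.1 r'.2 ⟨s, h2, h4⟩)]
  · intro q hq
    obtain ⟨r, hr, a, ha⟩ := h q hq
    obtain ⟨b, hb, s, hs1, hs2⟩ := hmax r ⟨a, ha⟩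
    exact ⟨s, hs2.trans hr, e ⟨b, hb⟩, ⟨b, hb⟩, rfl, hs1⟩

/-- The combinatorial principle on the tasks. -/
def Tasks : Prop :=
  ∀ (k : ℕ) (σ : Lv k → Om) (δ : (Lv k → Om) → Om),
    ∃ W : Set (Lv k → Om), W.Countable ∧ (∀ w ∈ W, ∀ i, σ i ≤ w i) ∧
      {i | ∀ w ∈ W, w i < δ w}.Countable

theorem Tasks.exists_seq (h : Tasks) (σ : Ix → Om) (δ : Tk → Om) :
    ∃ (tt : ℕ → Tk) (sp : ℕ → ℕ ⊕ Ix), (∀ k, ∃ j, sp j = Sum.inl k) ∧
      ∀ i, (∃ j, sp j = Sum.inr i) ∨ ∃ j, σ i ≤ rk (tt j) i ∧ δ (tt j) ≤ rk (tt j) i := by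
  choose W hW1 hW2 hW3 using fun k => h k (fun i => σ ⟨k, i⟩) (fun w => δ ⟨k, w⟩)
  obtain ⟨o⟩ := om_nonempty
  let T0 : Set Tk := insert (⟨0, fun _ => o⟩ : Tk) (⋃ k, (fun w => (⟨k, w⟩ : Tk)) '' W k)
  have hT0 : T0.Countable := (Set.countable_iUnion fun k => (hW1 k).image _).insert _
  let Z0 : Set (ℕ ⊕ Ix) := Set.range Sum.inl ∪
    Sum.inr '' (⋃ k, (fun i => (⟨k, i⟩ : Ix)) '' {i | ∀ w ∈ W k, w i < δ ⟨k, w⟩})
  have hZ0 : Z0.Countable := (Set.countable_range _).union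
    ((Set.countable_iUnion fun k => (hW3 k).image _).image _)
  obtain ⟨tt, htt⟩ := hT0.exists_eq_range ⟨_, Set.mem_insert _ _⟩
  obtain ⟨sp, hsp⟩ := hZ0.exists_eq_range ⟨Sum.inl 0, Or.inl ⟨0, rfl⟩⟩
  refine ⟨tt, sp, fun k => ?_, fun i => ?_⟩
  · have : Sum.inl k ∈ Z0 := Or.inl ⟨k, rfl⟩
    rw [hsp] at this
    exact this
  · obtain ⟨k, i⟩ := i
    by_cases hi : ∀ w ∈ W k, w i < δ ⟨k, w⟩
    · left
      have : Sum.inr (⟨k, i⟩ : Ix) ∈ Z0 := Or.inr ⟨_, Set.mem_iUnion.2 ⟨k, i, hi, rfl⟩, rfl⟩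
      rw [hsp] at this
      exact this
    · right
      push Not at hi
      obtain ⟨w, hw, hwi⟩ := hi
      have : (⟨k, w⟩ : Tk) ∈ T0 := Or.inr (Set.mem_iUnion.2 ⟨k, w, hw, rfl⟩)
      rw [htt] at this
      obtain ⟨j, hj⟩ := this
      refine ⟨j, ?_, ?_⟩
      · rw [hj, rk_mk]
        exact hW2 k w hw i
      · rw [hj, rk_mk]
        exact hwi

theorem starHurewicz_an (hT : Tasks) (p : Cd) : p ∈ StarHurewicz AN := by
  classical
  intro ι U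
  rw [mem_fimp]
  rintro q _ hU
  refine ⟨q, le_rfl, ?_⟩
  -- the chosen members of the covers
  have hch : ∀ (n : ℕ) (y : ℕ ⊕ Ix), ∃ N : ι → Set Cd, (∀ a, ∀ s ∈ N a, ∀ u ≤ s, u ∈ N a) ∧
      (∀ a, N a ⊆ {s | s ∈ meets (U n a y)}) ∧ (∀ s a b, s ∈ N a → s ∈ N b → a = b) ∧
      ∀ q' ≤ q, ∃ r ≤ q', ∃ a, r ∈ N a := fun n y =>
    exists_choice (fun a => {s | s ∈ meets (U n a y)}) (fun a s hs u hu => meets_down hs hu)
      (fun q' hq' => mem_fex.1 ((hU n).2 y) q' hq')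
  choose N hN1 hN2 hN3 hN4 using hch
  -- the domination
  let φ : (ℕ → Ix) → ℕ → ℕ → Set Cd := fun i n m => {s | ∃ a, s ∈ N n (Sum.inr (i n)) a ∧
    ∀ k, m ≤ k → ∀ s' ≤ s, s' ∈ meets (AN (i n) k) → s' ∈ meets (U n a (Sum.inl k))}
  have hdom : ∀ i : ℕ → Ix, ∃ β : Om, ∀ β', β ≤ β' → ∀ q' ≤ q, ∃ r ≤ q', ∀ n v, ∀ s ≤ r,
      (r.1.core.g β').length ≤ n → s ∈ GN β' n v → s ∈ φ i n v := by
    intro i
    refine exists_dom (φ i) ?_ ?_ ?_
    · rintro n m s ⟨a, h1, h2⟩ s' hs'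
      exact ⟨a, hN1 _ _ _ _ h1 _ hs', fun k hk s'' hs'' h => h2 k hk s'' (hs''.trans hs') h⟩
    · rintro n m m' hm s ⟨a, h1, h2⟩
      exact ⟨a, h1, fun k hk => h2 k (hm.trans hk)⟩
    · intro n s hs
      obtain ⟨r, hr, a, ha⟩ := hN4 n (Sum.inr (i n)) s hs
      obtain ⟨r1, hr1, h1⟩ := mem_fimp.1 ((hU n).1 a (i n)) r (hr.trans hs) (hN2 _ _ _ ha)
      obtain ⟨r2, hr2, m, h2⟩ := mem_fex.1 h1 r1 le_rfl
      refine ⟨r2, hr2.trans (hr1.trans hr), m, a, hN1 _ _ _ _ ha _ (hr2.trans hr1),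
        fun k hk s' hs' h => ?_⟩
      apply meets_of_dense
      intro u hu
      exact mem_fimp.1 (h2 k) u (hu.trans hs') ⟨hk, meets_down h hu⟩
  choose β hβ using hdom
  obtain ⟨tt, sp, hsp, hcov⟩ := hT.exists_seq (fun i => β fun _ => i) (fun t => β (blk t))
  let Y : ℕ → Finset (ℕ ⊕ Ix) := fun n => (Finset.range (n + 1)).image sp ∪
    (Finset.range (n + 1)).image fun j => Sum.inr (blk (tt j) n)
  have hY1 : ∀ j n, j ≤ n → sp j ∈ Y n := fun j n hj =>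
    Finset.mem_union_left _ (Finset.mem_image.2 ⟨j, Finset.mem_range.2 (by omega), rfl⟩)
  have hY2 : ∀ j n, j ≤ n → Sum.inr (blk (tt j) n) ∈ Y n := fun j n hj =>
    Finset.mem_union_right _ (Finset.mem_image.2 ⟨j, Finset.mem_range.2 (by omega), rfl⟩)
  let F : ℕ → ι → Set Cd := fun n a => {s | ∃ y ∈ Y n, s ∈ N n y a}
  rw [mem_fex]
  intro q' hq'
  refine ⟨q', le_rfl, F, fun n => ?_, fun x => ?_⟩
  · -- the sets are finite
    unfold IsFiniteSub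
    rw [mem_fex]
    intro s hs
    have hfin : ∀ Y' : Finset (ℕ ⊕ Ix), ∃ r ≤ s, ∃ e : ℕ ⊕ Ix → ι, ∀ y ∈ Y', r ∈ N n y (e y) := by
      intro Y'
      induction Y' using Finset.induction_on with
      | empty =>
        obtain ⟨r, hr, a, ha⟩ := hN4 n (Sum.inl 0) s (hs.trans hq')
        exact ⟨s, le_rfl, fun _ => a, fun y hy => absurd hy (Finset.notMem_empty _)⟩
      | insert y Y' hy ih =>
        obtain ⟨r, hr, e, he⟩ := ih
        obtain ⟨r', hr', a, ha⟩ := hN4 n y r (hr.trans (hs.trans hq'))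
        refine ⟨r', hr'.trans hr, fun y' => if y' = y then a else e y', fun y' hy' => ?_⟩
        by_cases h : y' = y
        · subst h
          simp only [if_true]
          exact ha
        · simp only [if_neg h]
          exact hN1 _ _ _ _ (he y' ((Finset.mem_insert.1 hy').resolve_left h)) _ hr'
    obtain ⟨r, hr, e, he⟩ := hfin (Y n)
    refine ⟨r, hr, (Y n).image e, fun a => ?_⟩
    rw [mem_fimp]
    intro u hu hua
    obtain ⟨u', hu', y, hy, hya⟩ := exists_of_meets (N := F n a) (by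
      rintro s ⟨y, hy, h⟩ s' hs'
      exact ⟨y, hy, hN1 _ _ _ _ h _ hs'⟩) hua
    refine ⟨u, le_rfl, ?_⟩
    have : a = e y := hN3 n y u' a (e y) hya (hN1 _ _ _ _ (he y hy) _ (hu'.trans hu))
    exact Finset.mem_image.2 ⟨y, hy, this.symm⟩
  · -- every point is covered
    rw [mem_fex]
    intro s hs
    have hspec : ∀ j, sp j = x → ∃ r ≤ s, ∃ m, r ∈ fall fun n => fall fun _ : m ≤ n =>
        InStar (U n) (F n) x := by
      rintro j rfl
      refine ⟨s, le_rfl, j, fun n hn => ?_⟩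
      unfold InStar
      rw [mem_fex]
      intro u hu
      obtain ⟨r, hr, a, ha⟩ := hN4 n (sp j) u (hu.trans (hs.trans hq'))
      have h1 : r ∈ meets (U n a (sp j)) := hN2 _ _ _ ha
      refine ⟨r, hr, a, h1, ?_⟩
      rw [mem_fex]
      intro r1 hr1
      refine ⟨r1, le_rfl, a, meets_down (meets_of_mem ⟨sp j, hY1 j n hn, ha⟩) hr1, ?_⟩
      rw [mem_fex]
      intro r2 hr2
      exact ⟨r2, le_rfl, sp j, meets_down h1 (hr2.trans hr1), meets_down h1 (hr2.trans hr1)⟩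
    rcases x with k | i
    · obtain ⟨j, hj⟩ := hsp k
      exact hspec j hj
    rcases hcov i with ⟨j, hj⟩ | ⟨j, h1, h2⟩
    · exact hspec j hj
    obtain ⟨r1, hr1, h3⟩ := hβ (fun _ => i) (rk (tt j) i) h1 s (hs.trans hq')
    obtain ⟨r2, hr2, h4⟩ := hβ (blk (tt j)) (rk (tt j) i) h2 r1 (hr1.trans (hs.trans hq'))
    obtain ⟨r3, h5, h6, h7⟩ := exists_ac r2.2 (tt j) i
    have hr3 : mkCd r3 h5 ≤ r2 := h6
    have hfin : ({n : ℕ | s(blk (tt j) n, i) ∈ r3.core.z} ∪ {n : ℕ | blk (tt j) n = i}).Finite := by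
      refine (finite_blk r3 (tt j) i).union (Set.Subsingleton.finite ?_)
      intro n hn n' hn'
      exact (blk_inj (show blk (tt j) n = blk (tt j) n' from
        (show blk (tt j) n = i from hn).trans (show blk (tt j) n' = i from hn').symm)).2
    obtain ⟨M, hM⟩ := hfin.bddAbove
    refine ⟨mkCd r3 h5, hr3.trans (hr2.trans hr1), max (max j (M + 1))
      (max (r1.1.core.g (rk (tt j) i)).length (r2.1.core.g (rk (tt j) i)).length), fun n hn => ?_⟩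
    have hn1 : j ≤ n := (le_max_left _ _).trans ((le_max_left _ _).trans hn)
    have hn2 : M + 1 ≤ n := (le_max_right _ _).trans ((le_max_left _ _).trans hn)
    have hn3 : (r1.1.core.g (rk (tt j) i)).length ≤ n :=
      (le_max_left _ _).trans ((le_max_right _ _).trans hn)
    have hn4 : (r2.1.core.g (rk (tt j) i)).length ≤ n :=
      (le_max_right _ _).trans ((le_max_right _ _).trans hn)
    have hn5 : s(blk (tt j) n, i) ∉ r3.core.z := fun h => by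
      have := hM (Or.inl h)
      omega
    have hn6 : blk (tt j) n ≠ i := fun h => by
      have := hM (Or.inr h)
      omega
    unfold InStar
    rw [mem_fex]
    intro u hu
    obtain ⟨u1, h8, h9, h10⟩ := exists_z u.2 hn6
    have hu1 : mkCd u1 h8 ≤ u := h9
    have hu1' : Le u1 r3 := le_trans' h9 (cd_le.1 hu)
    obtain ⟨k, v, h11, h12, h13, h14⟩ := (le_iff.1 hu1').1.rq (tt j) i h7 n h10 hn5
    have hle2 : mkCd u1 h8 ≤ r2 := hu1.trans (hu.trans hr3)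
    obtain ⟨a, h15, h16⟩ := h3 n v (mkCd u1 h8) (hle2.trans hr2) hn3 h13
    obtain ⟨a', h17, h18⟩ := h4 n v (mkCd u1 h8) hle2 hn4 h13
    have h19 : mkCd u1 h8 ∈ meets (U n a (Sum.inl k)) :=
      h16 k h14 _ le_rfl (meets_of_mem h12)
    have h20 : mkCd u1 h8 ∈ meets (U n a' (Sum.inl k)) :=
      h18 k h14 _ le_rfl (meets_of_mem h11)
    refine ⟨mkCd u1 h8, hu1, a, hN2 _ _ _ h15, ?_⟩
    rw [mem_fex]
    intro u2 hu2
    refine ⟨u2, le_rfl, a', meets_down (meets_of_mem ⟨_, hY2 j n hn1, h17⟩) hu2, ?_⟩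
    rw [mem_fex]
    intro u3 hu3
    exact ⟨u3, le_rfl, Sum.inl k, meets_down h19 (hu3.trans hu2), meets_down h20 (hu3.trans hu2)⟩

theorem starMenger_of {P : Type} [Preorder P] {K : Type} {A : K → ℕ → Set P} {p : P}
    (h : p ∈ StarHurewicz A) : p ∈ StarMenger A := by
  intro ι U
  rw [mem_fimp]
  intro q hq hU
  obtain ⟨r, hr, h1⟩ := mem_fimp.1 (h ι U) q hq hU
  refine ⟨r, hr, ?_⟩
  rw [mem_fex] at h1 ⊢
  intro s hs
  obtain ⟨u, hu, F, h2, h3⟩ := h1 s hs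
  refine ⟨u, hu, F, h2, fun x => ?_⟩
  rw [mem_fex]
  intro v hv
  obtain ⟨w, hw, m, h4⟩ := mem_fex.1 (h3 x) v hv
  exact ⟨w, hw, m, h4 m le_rfl⟩

theorem nonempty_cd : Nonempty Cd := by
  obtain ⟨p, -, h⟩ := exists_pre ⟨fun _ => [], fun _ => [], ∅, ∅, by simp, by simp, by simp,
    by simp⟩ ∅ finite_empty
  refine ⟨⟨p, fun x hx => ?_⟩⟩
  rw [h] at hx
  exact absurd hx (notMem_empty _)

/-- A dominating family, indexed by another set. -/
theorem isDominating_comp {P : Type} [Preorder P] {K K' : Type} {g : K → ℕ → ℕ → Set P} {p : P}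
    (h : p ∈ IsDominating g) {e : K' → K} (he : Function.Surjective e) :
    p ∈ IsDominating fun i => g (e i) := by
  refine ⟨fun i => h.1 (e i), fun f => ?_⟩
  rw [mem_fimp]
  intro q hq hf
  obtain ⟨r, hr, h1⟩ := mem_fimp.1 (h.2 f) q hq hf
  refine ⟨r, hr, ?_⟩
  rw [mem_fex] at h1 ⊢
  intro s hs
  obtain ⟨u, hu, β, h2⟩ := h1 s hs
  obtain ⟨i, rfl⟩ := he β
  exact ⟨u, hu, i, h2⟩

/-- A dominating family is unbounded. -/
theorem isUnbounded_of {P : Type} [Preorder P] {K : Type} {g : K → ℕ → ℕ → Set P} {p : P}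
    (h : p ∈ IsDominating g) : p ∈ IsUnbounded g := by
  refine ⟨h.1, fun f => ?_⟩
  rw [mem_fimp]
  intro q hq hf
  refine ⟨q, le_rfl, ?_⟩
  intro r hr hcon
  -- the function `f + 1`
  have hf' : r ∈ IsFun fun n a => {s : P | 0 < a ∧ s ∈ f n (a - 1)} := by
    refine ⟨fun n => ?_, fun n a b => ?_⟩
    · rw [mem_fex]
      intro s hs
      obtain ⟨u, hu, a, ha⟩ := mem_fex.1 (hf.1 n) s (hs.trans hr)
      refine ⟨u, hu, a + 1, fun v hv => ?_⟩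
      obtain ⟨w, hw, s', hs', hle⟩ := ha v hv
      exact ⟨w, hw, s', ⟨Nat.succ_pos _, by simpa using hs'⟩, hle⟩
    · rw [mem_fimp]
      rintro s hs ⟨h1, h2⟩
      have h3 : ∀ {c : ℕ}, s ∈ meets {s : P | 0 < c ∧ s ∈ f n (c - 1)} →
          0 < c ∧ s ∈ meets (f n (c - 1)) := by
        intro c hc
        obtain ⟨_, _, _, h4, _⟩ := hc s le_rfl
        refine ⟨h4.1, fun v hv => ?_⟩
        obtain ⟨w, hw, s', hs', hle⟩ := hc v hv
        exact ⟨w, hw, s', hs'.2, hle⟩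
      obtain ⟨h4, h5⟩ := h3 h1
      obtain ⟨h6, h7⟩ := h3 h2
      obtain ⟨u, hu, h8⟩ := mem_fimp.1 (hf.2 n (a - 1) (b - 1)) s (hs.trans hr) ⟨h5, h7⟩
      refine ⟨u, hu, ?_⟩
      have h9 : a - 1 = b - 1 := h8
      show a = b
      omega
  obtain ⟨r1, hr1, h1⟩ := mem_fimp.1 (h.2 _) r (hr.trans hq) hf'
  obtain ⟨r2, hr2, β, h2⟩ := mem_fex.1 h1 r1 le_rfl
  obtain ⟨r3, hr3, m, h3⟩ := mem_fex.1 h2 r2 le_rfl
  obtain ⟨r4, hr4, m', h4⟩ := mem_fex.1 (hcon β) r3 (hr3.trans (hr2.trans hr1))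
  -- the values at `n`
  have hr4r : r4 ≤ r := hr4.trans (hr3.trans (hr2.trans hr1))
  obtain ⟨r5, hr5, a, ha⟩ := mem_fex.1 (hf.1 (max m m')) r4 (hr4r.trans hr)
  have hgβ : p ∈ IsFun (g β) := h.1 β
  obtain ⟨r6, hr6, b, hb⟩ := mem_fex.1 (hgβ.1 (max m m')) r5
    (hr5.trans (hr4r.trans (hr.trans hq)))
  have ha' : r6 ∈ meets {s : P | 0 < a + 1 ∧ s ∈ f (max m m') (a + 1 - 1)} := by
    intro v hv
    obtain ⟨w, hw, s', hs', hle⟩ := ha v (hv.trans hr6)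
    exact ⟨w, hw, s', ⟨Nat.succ_pos _, by simpa using hs'⟩, hle⟩
  obtain ⟨_, _, h5⟩ := mem_fimp.1 (h3 (max m m') (a + 1) b) r6 (hr6.trans (hr5.trans hr4))
    ⟨show m ≤ max m m' from le_max_left _ _, ha', hb⟩
  obtain ⟨_, _, h6⟩ := mem_fimp.1 (h4 (max m m') b a) r6 (hr6.trans hr5)
    ⟨show m' ≤ max m m' from le_max_right _ _, hb, meets_down ha hr6⟩
  have h7 : a + 1 ≤ b := h5
  have h8 : b ≤ a := h6
  omega

theorem exists_surj : ∃ e : Ix → Om, Function.Surjective e := by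
  obtain ⟨o⟩ := om_nonempty
  refine ⟨fun i => match i with
    | ⟨0, i⟩ => i
    | ⟨_ + 1, _⟩ => o, fun i => ⟨⟨0, i⟩, rfl⟩⟩

theorem mk_Ix : ℵ_ 1 ≤ #Ix := by
  obtain ⟨e, he⟩ := exists_surj
  rw [← mk_Om]
  exact mk_le_of_surjective he

theorem exists_forcing (hT : Tasks) : ∃ (P : Type) (_ : Preorder P), Nonempty P ∧ CCC P ∧
    ∀ p : P, p ∈ CardinalsPreserved P ∧
      (p ∈ fex fun g : K1 → ℕ → ℕ → Set P => IsDominating g) ∧
      p ∈ fex fun A : Ix → ℕ → Set P => fand (IsAD A) (fand (StarHurewicz A)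
        (fand (StarMenger A) (fex fun g : Ix → ℕ → ℕ → Set P =>
          fand (IsDominating g) (IsUnbounded g)))) := by
  obtain ⟨e, he⟩ := exists_surj
  exact ⟨Cd, inferInstance, nonempty_cd, CCC_of cd_ccc, fun p => ⟨cardinalsPreserved cd_ccc p,
    mem_fex.2 fun q _ => ⟨q, le_rfl, GN, isDominating_gn q⟩,
    mem_fex.2 fun q _ => ⟨q, le_rfl, AN, isAD_an q, starHurewicz_an hT q,
      starMenger_of (starHurewicz_an hT q), mem_fex.2 fun r _ => ⟨r, le_rfl, fun i => GN (e i),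
        isDominating_comp (isDominating_gn r) he,
        isUnbounded_of (isDominating_comp (isDominating_gn r) he)⟩⟩⟩⟩

end Pool.Agent.R594.Star
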